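import Pool.Agent.H39.DP.DLBa

/-!
# Two dilations, lower bound (DLB), part b: the integral and the diagonal
-/

set_option autoImplicit false

open Complex MeasureTheory Set Filter Topology

namespace Pool.Agent.H39.DP

open Pool.Agent.H25.DL Pool.Agent.H25.DP

/-- the Fourier transform of the bump -/
noncomputable def II (H W Δ : ℝ) : ℂ :=
  ∫ u in H..(H + W), (om ((u - H) / W) : ℂ) * cexp ((Δ * u : ℝ) * I)

lemma integral_om : ∫ x in (0 : ℝ)..1, om x = 16 / 35 := by
  have h : ∀ x : ℝ, om x = 64 * x ^ 3 - 192 * x ^ 4 + 192 * x ^ 5 - 64 * x ^ 6 := fun x => by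
    unfold om; ring
  simp_rw [h]
  rw [intervalIntegral.integral_sub, intervalIntegral.integral_add, intervalIntegral.integral_sub,
    intervalIntegral.integral_const_mul, intervalIntegral.integral_const_mul,
    intervalIntegral.integral_const_mul, intervalIntegral.integral_const_mul, integral_pow,
    integral_pow, integral_pow, integral_pow]
  · norm_num
  all_goals exact Continuous.intervalIntegrable (by fun_prop) _ _

lemma II_zero (H W : ℝ) (hW : 0 < W) : II H W 0 = ((16 / 35 * W : ℝ) : ℂ) := by
  unfold II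
  have h1 : ∀ u : ℝ, (om ((u - H) / W) : ℂ) * cexp (((0 : ℝ) * u : ℝ) * I) =
      ((om ((u - H) / W) : ℝ) : ℂ) := fun u => by simp
  simp_rw [h1]
  rw [intervalIntegral.integral_ofReal]
  congr 1
  have h2 := intervalIntegral.integral_comp_sub_div (a := H) (b := H + W) om hW.ne' 0
  have h3 := intervalIntegral.integral_comp_sub_right (a := H) (b := H + W)
    (fun x => om (x / W)) H
  rw [h3]
  simp only [sub_self, add_sub_cancel_left]
  rw [intervalIntegral.integral_comp_div om hW.ne']
  simp only [zero_div, div_self hW.ne', integral_om, smul_eq_mul]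
  ring

variable {ι : Type} [Fintype ι]

/-! ### Continuity -/

lemma continuous_Pj (f : ι → Fac) (j : ι → ℕ) : Continuous fun s : ℂ => Pj f j s := by
  unfold Pj
  refine continuous_finsetProd _ fun l _ => ?_
  unfold Fac.B
  refine continuous_finsetSum _ fun n hn => ?_
  have hn0 : n ≠ 0 := by
    have h1 := (Finset.mem_Ico.1 hn).1
    have h2 : 1 ≤ 2 ^ j l := Nat.one_le_two_pow
    omega
  have hn1 : (n : ℂ) ≠ 0 := by exact_mod_cast hn0
  refine continuous_const.mul ?_
  refine Continuous.const_cpow ?_ (Or.inl hn1)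
  unfold wl
  fun_prop

lemma continuous_LX (f : ι → Fac) (β ξ R : ℝ) (j : ι → ℕ) :
    Continuous fun u : ℝ => LX f β ξ R j u := by
  unfold LX
  refine intervalIntegral.continuous_parametric_intervalIntegral_of_continuous' ?_ _ _
  have h1 := continuous_Pj f j
  have h2 : Continuous fun p : ℝ × ℝ => (starRingEnd ℂ) (Pj f j (1 / 2 + (p.1 + p.2 : ℝ) * I)) :=
    Complex.continuous_conj.comp (h1.comp (by fun_prop))
  have h3 : Continuous fun p : ℝ × ℝ => gx β ξ (p.2 * I) := by
    unfold gx gs
    fun_prop
  exact h2.mul h3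

lemma continuous_TP (X : ℕ) (ρ : ℕ → ℂ) : Continuous (TP X ρ) := by
  unfold TP
  exact continuous_finsetSum _ fun p _ => continuous_const.mul (continuous_en p)

lemma norm_TP_le (X : ℕ) (ρ : ℕ → ℂ) (hρ : ∀ p, ‖ρ p‖ ≤ (X : ℝ) ^ (-(1 / 2) : ℝ)) (u : ℝ) :
    ‖TP X ρ u‖ ≤ (X : ℝ) * (X : ℝ) ^ (-(1 / 2) : ℝ) := by
  unfold TP
  refine (norm_sum_le _ _).trans ?_
  calc _ ≤ ∑ p ∈ Finset.Ico X (2 * X), (X : ℝ) ^ (-(1 / 2) : ℝ) := by
        refine Finset.sum_le_sum fun p _ => ?_
        rw [norm_mul, norm_en, mul_one]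
        exact hρ p
    _ = _ := by
        rw [Finset.sum_const, nsmul_eq_mul, Nat.card_Ico]
        congr 2
        omega

/-- the expansion of the integral -/
lemma expand (f : ι → Fac) (D T ξ β H W δ : ℝ) (hW : 0 < W) (hδ : 0 ≤ δ) (g : (ι → ℕ) → ℝ)
    (X : ℕ) (ρ : ℕ → ℂ) (hρ : ∀ p, ‖ρ p‖ ≤ (X : ℝ) ^ (-(1 / 2) : ℝ))
    (h : ∀ u : ℝ, ‖(∑ j ∈ mains f 1 D T, LX f β ξ (Real.log T) j u) - ∑ z ∈ TU f D T,
        (starRingEnd ℂ) (co f z) * cexp ((u * lam f z : ℝ) * I) * (g z : ℂ)‖ ≤ δ) :
    ‖(∫ u in H..(H + W), (om ((u - H) / W) : ℂ) *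
          (∑ j ∈ mains f 1 D T, LX f β ξ (Real.log T) j u) * TP X ρ u) -
      ∑ z ∈ TU f D T, ∑ p ∈ Finset.Ico X (2 * X),
        (starRingEnd ℂ) (co f z) * (g z : ℂ) * ρ p * II H W (lam f z - Real.log p)‖ ≤
      δ * ((X : ℝ) * (X : ℝ) ^ (-(1 / 2) : ℝ)) * W := by
  have hom : Continuous fun u : ℝ => (om ((u - H) / W) : ℂ) :=
    Complex.continuous_ofReal.comp (continuous_om.comp (by fun_prop))
  have hM : Continuous fun u : ℝ => ∑ z ∈ TU f D T,
      (starRingEnd ℂ) (co f z) * cexp ((u * lam f z : ℝ) * I) * (g z : ℂ) := by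
    refine continuous_finsetSum _ fun z _ => ?_
    fun_prop
  have hL : Continuous fun u : ℝ => ∑ j ∈ mains f 1 D T, LX f β ξ (Real.log T) j u :=
    continuous_finsetSum _ fun j _ => continuous_LX f β ξ _ j
  have hTP := continuous_TP X ρ
  have h1 : ∑ z ∈ TU f D T, ∑ p ∈ Finset.Ico X (2 * X),
        (starRingEnd ℂ) (co f z) * (g z : ℂ) * ρ p * II H W (lam f z - Real.log p) =
      ∫ u in H..(H + W), (om ((u - H) / W) : ℂ) * (∑ z ∈ TU f D T,
        (starRingEnd ℂ) (co f z) * cexp ((u * lam f z : ℝ) * I) * (g z : ℂ)) * TP X ρ u := by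
    have h2 : ∀ u : ℝ, (om ((u - H) / W) : ℂ) * (∑ z ∈ TU f D T,
        (starRingEnd ℂ) (co f z) * cexp ((u * lam f z : ℝ) * I) * (g z : ℂ)) * TP X ρ u =
        ∑ z ∈ TU f D T, ∑ p ∈ Finset.Ico X (2 * X),
          (starRingEnd ℂ) (co f z) * (g z : ℂ) * ρ p * ((om ((u - H) / W) : ℂ) *
            cexp (((lam f z - Real.log p) * u : ℝ) * I)) := by
      intro u
      unfold TP
      rw [Finset.mul_sum (TU f D T), Finset.sum_mul]
      refine Finset.sum_congr rfl fun z _ => ?_
      rw [Finset.mul_sum]
      refine Finset.sum_congr rfl fun p _ => ?_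
      have h3 : cexp (((lam f z - Real.log p) * u : ℝ) * I) =
          cexp ((u * lam f z : ℝ) * I) * en p u := by
        unfold en
        rw [← Complex.exp_add]
        congr 1
        push_cast
        ring
      rw [h3]
      ring
    simp_rw [h2]
    rw [intervalIntegral.integral_finsetSum]
    · refine Finset.sum_congr rfl fun z _ => ?_
      rw [intervalIntegral.integral_finsetSum]
      · refine Finset.sum_congr rfl fun p _ => ?_
        rw [intervalIntegral.integral_const_mul]
        rfl
      · intro p _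
        refine Continuous.intervalIntegrable ?_ _ _
        exact continuous_const.mul (hom.mul (by fun_prop))
    · intro z _
      refine Continuous.intervalIntegrable ?_ _ _
      refine continuous_finsetSum _ fun p _ => ?_
      exact continuous_const.mul (hom.mul (by fun_prop))
  rw [h1, ← intervalIntegral.integral_sub]
  · have h4 := intervalIntegral.norm_integral_le_of_norm_le_const (a := H) (b := H + W)
      (C := δ * ((X : ℝ) * (X : ℝ) ^ (-(1 / 2) : ℝ)))
      (f := fun u : ℝ => (om ((u - H) / W) : ℂ) *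
          (∑ j ∈ mains f 1 D T, LX f β ξ (Real.log T) j u) * TP X ρ u -
        (om ((u - H) / W) : ℂ) * (∑ z ∈ TU f D T,
        (starRingEnd ℂ) (co f z) * cexp ((u * lam f z : ℝ) * I) * (g z : ℂ)) * TP X ρ u) ?_
    · refine h4.trans ?_
      rw [add_sub_cancel_left, abs_of_pos hW]
    · intro u hu
      rw [Set.uIoc_of_le (by linarith)] at hu
      have h5 : (om ((u - H) / W) : ℂ) *
          (∑ j ∈ mains f 1 D T, LX f β ξ (Real.log T) j u) * TP X ρ u -
        (om ((u - H) / W) : ℂ) * (∑ z ∈ TU f D T,
        (starRingEnd ℂ) (co f z) * cexp ((u * lam f z : ℝ) * I) * (g z : ℂ)) * TP X ρ u =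
        (om ((u - H) / W) : ℂ) * ((∑ j ∈ mains f 1 D T, LX f β ξ (Real.log T) j u) -
          ∑ z ∈ TU f D T,
        (starRingEnd ℂ) (co f z) * cexp ((u * lam f z : ℝ) * I) * (g z : ℂ)) * TP X ρ u := by
        ring
      rw [h5, norm_mul, norm_mul, Complex.norm_real, Real.norm_eq_abs]
      have h6 : |om ((u - H) / W)| ≤ 1 := by
        refine abs_om_le ?_ ?_
        · exact div_nonneg (by linarith [hu.1]) hW.le
        · rw [div_le_one hW]
          linarith [hu.2]
      calc _ ≤ 1 * δ * ((X : ℝ) * (X : ℝ) ^ (-(1 / 2) : ℝ)) := by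
            gcongr
            · exact h u
            · exact norm_TP_le X ρ hρ u
        _ = _ := by ring
  · exact ((hom.mul hL).mul hTP).intervalIntegrable _ _
  · exact ((hom.mul hM).mul hTP).intervalIntegrable _ _

/-! ### The diagonal -/

lemma norm_bp_le (f : ι → Fac) (p : ℕ) (hp : 0 < p) : ‖bp f p‖ ≤ Fintype.card ι := by
  unfold bp
  refine (norm_sum_le _ _).trans ?_
  calc _ ≤ ∑ _l : ι, (1 : ℝ) := by
        refine Finset.sum_le_sum fun l _ => ?_
        split_ifs
        · rw [norm_mul, Complex.norm_natCast_cpow_of_pos hp]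
          have : (-((f l).τ * I) : ℂ).re = 0 := by simp
          rw [this, Real.rpow_zero, mul_one]
          exact (f l).c_le p
        · simp
    _ = _ := by simp

open Classical in
lemma co_update (f : ι → Fac) (l : ι) (p : ℕ) :
    co f (Function.update (fun _ => 1) l p) =
      (f l).c p * (p : ℂ) ^ (-(1 / 2 + (f l).τ * I) : ℂ) := by
  unfold co
  rw [Finset.prod_eq_single l]
  · simp
  · intro b _ hb
    rw [Function.update_of_ne hb, (f b).c_one]
    simp
  · intro h
    exact absurd (Finset.mem_univ l) h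

open Classical in
lemma update_mem_TU (f : ι → Fac) (D T : ℝ) (l : ι) (p : ℕ)
    (hp : 1 ≤ p) (hl : (f l).r = 1) (hpT : Real.log p ≤ D * Real.log T) :
    Function.update (fun _ => 1) l p ∈ TU f D T := by
  have hlog2 : 0 < Real.log 2 := Real.log_pos one_lt_two
  have h1 : (Nat.log 2 p : ℝ) * Real.log 2 ≤ Real.log p := by
    rw [← Real.log_pow]
    refine Real.log_le_log (by positivity) ?_
    have := Nat.pow_log_le_self 2 (x := p) (by omega)
    exact_mod_cast this
  have h2 : (Nat.log 2 p : ℝ) * Real.log 2 ≤ D * Real.log T := h1.trans hpT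
  unfold TU
  rw [Finset.mem_biUnion]
  refine ⟨Function.update (fun _ => 0) l (Nat.log 2 p), ?_, ?_⟩
  · unfold mains
    rw [Finset.mem_filter, Fintype.mem_piFinset]
    refine ⟨fun b => ?_, ?_⟩
    · rw [Finset.mem_range]
      by_cases hb : b = l
      · subst hb
        rw [Function.update_self, Nat.lt_succ_iff]
        refine Nat.le_floor ?_
        rw [one_mul, le_div_iff₀ hlog2]
        exact h2
      · rw [Function.update_of_ne hb]
        omega
    · rw [Finset.sum_eq_single l]
      · rw [Function.update_self, hl]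
        linarith
      · intro b _ hb
        rw [Function.update_of_ne hb]
        simp
      · intro h
        exact absurd (Finset.mem_univ l) h
  · rw [Fintype.mem_piFinset]
    intro b
    rw [Finset.mem_Ico]
    by_cases hb : b = l
    · subst hb
      rw [Function.update_self, Function.update_self]
      refine ⟨Nat.pow_log_le_self 2 (by omega), ?_⟩
      exact Nat.lt_pow_succ_log_self one_lt_two p
    · rw [Function.update_of_ne hb, Function.update_of_ne hb]
      simp

open Classical in
lemma diag_set (f : ι → Fac) (D T : ℝ) (p : ℕ) (hp : p.Prime)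
    (hpT : Real.log p ≤ D * Real.log T) :
    ((TU f D T).filter fun z => NN f z = 1 ∧ kk f z = p) =
      (Finset.univ.filter fun l : ι => (f l).r = 1).image
        fun l => Function.update (fun _ => 1) l p := by
  ext z
  rw [Finset.mem_filter, Finset.mem_image]
  constructor
  · rintro ⟨hz, hN, hk⟩
    have hdvd : p ∣ ∏ l, (if (f l).r = 1 then z l else 1) := by
      unfold kk at hk
      rw [hk]
    obtain ⟨l, _, hl⟩ := (Nat.Prime.prime hp).exists_mem_finset_dvd hdvd
    have hlr : (f l).r = 1 := by
      by_contra hne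
      rw [if_neg hne] at hl
      exact hp.one_lt.ne' (Nat.dvd_one.1 hl)
    rw [if_pos hlr] at hl
    have hzl : z l = p := by
      have h1 : (if (f l).r = 1 then z l else 1) ∣ kk f z :=
        Finset.dvd_prod_of_mem _ (Finset.mem_univ l)
      rw [if_pos hlr, hk] at h1
      exact Nat.dvd_antisymm h1 hl
    refine ⟨l, Finset.mem_filter.2 ⟨Finset.mem_univ l, hlr⟩, ?_⟩
    funext b
    by_cases hb : b = l
    · subst hb
      rw [Function.update_self, hzl]
    · rw [Function.update_of_ne hb]
      by_cases hbr : (f b).r = 1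
      · have h2 : kk f z = (if (f l).r = 1 then z l else 1) *
            ∏ x ∈ Finset.univ.erase l, (if (f x).r = 1 then z x else 1) := by
          unfold kk
          exact (Finset.mul_prod_erase Finset.univ (fun x => if (f x).r = 1 then z x else 1)
            (Finset.mem_univ l)).symm
        rw [if_pos hlr, hk, hzl] at h2
        have h3 : ∏ x ∈ Finset.univ.erase l, (if (f x).r = 1 then z x else 1) = 1 := by
          have := hp.pos
          nlinarith [Nat.eq_of_mul_eq_mul_left hp.pos (h2.symm.trans (mul_one p).symm)]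
        have h4 : (if (f b).r = 1 then z b else 1) ∣
            ∏ x ∈ Finset.univ.erase l, (if (f x).r = 1 then z x else 1) :=
          Finset.dvd_prod_of_mem _ (Finset.mem_erase.2 ⟨hb, Finset.mem_univ b⟩)
        rw [h3, if_pos hbr, Nat.dvd_one] at h4
        exact h4.symm
      · have h4 : (if (f b).r = 1 then 1 else z b) ∣ NN f z :=
          Finset.dvd_prod_of_mem _ (Finset.mem_univ b)
        rw [hN, if_neg hbr, Nat.dvd_one] at h4
        exact h4.symm
  · rintro ⟨l, hl, rfl⟩
    have hlr := (Finset.mem_filter.1 hl).2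
    refine ⟨update_mem_TU f D T l p hp.one_lt.le hlr hpT, ?_, ?_⟩
    · unfold NN
      refine Finset.prod_eq_one fun b _ => ?_
      by_cases hb : b = l
      · subst hb
        rw [if_pos hlr]
      · rw [Function.update_of_ne hb]
        simp
    · unfold kk
      rw [Finset.prod_eq_single l]
      · rw [if_pos hlr, Function.update_self]
      · intro b _ hb
        rw [Function.update_of_ne hb]
        simp
      · intro h
        exact absurd (Finset.mem_univ l) h

open Classical in
lemma diag_sum (f : ι → Fac) (D T : ℝ) (p : ℕ) (hp : p.Prime)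
    (hpT : Real.log p ≤ D * Real.log T) :
    ∑ z ∈ (TU f D T).filter (fun z => NN f z = 1 ∧ kk f z = p), co f z =
      bp f p * (((p : ℝ) ^ (-(1 / 2) : ℝ) : ℝ) : ℂ) := by
  rw [diag_set f D T p hp hpT, Finset.sum_image]
  · unfold bp
    rw [Finset.sum_mul, Finset.sum_filter]
    refine Finset.sum_congr rfl fun l _ => ?_
    have hp0 : (p : ℂ) ≠ 0 := by exact_mod_cast hp.pos.ne'
    split_ifs with h
    · rw [co_update, mul_assoc]
      congr 1
      have h1 : (-(1 / 2 + (f l).τ * I) : ℂ) = -((f l).τ * I) + ((-(1 / 2) : ℝ) : ℂ) := by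
        push_cast
        ring
      rw [h1, Complex.cpow_add _ _ hp0]
      congr 1
      rw [Complex.ofReal_cpow (by positivity)]
      simp
    · simp
  · intro l hl l' hl' h
    by_contra hne
    have h1 := congrFun h l
    simp only at h1
    rw [Function.update_self, Function.update_of_ne hne] at h1
    exact hp.one_lt.ne' h1

end Pool.Agent.H39.DP
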