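import Pool.Agent.H39.DP.DLBc

/-!
# Two dilations, lower bound (DLB)
-/

set_option autoImplicit false

open Complex MeasureTheory Set Filter Topology

namespace Pool.Agent.H39.DP

open Pool.Agent.H25.DL Pool.Agent.H25.DP

variable {ι : Type} [Fintype ι]

open Classical in
/-- the coefficients of the test polynomial -/
noncomputable def rh (f : ι → Fac) (X p : ℕ) : ℂ :=
  if p ∈ (Finset.Ico X (2 * X)).filter Nat.Prime then
    bp f p * (((p : ℝ) ^ (-(1 / 2) : ℝ) : ℝ) : ℂ) / (Fintype.card ι + 1 : ℝ) else 0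

lemma norm_rh_le (f : ι → Fac) (X p : ℕ) (hX : 1 ≤ X) :
    ‖rh f X p‖ ≤ (X : ℝ) ^ (-(1 / 2) : ℝ) := by
  have hX0 : (0 : ℝ) < X := by exact_mod_cast hX
  unfold rh
  split_ifs with h
  · rw [Finset.mem_filter, Finset.mem_Ico] at h
    have hp : 0 < p := h.2.pos
    have h1 := norm_bp_le f p hp
    have h2 : (p : ℝ) ^ (-(1 / 2) : ℝ) ≤ (X : ℝ) ^ (-(1 / 2) : ℝ) :=
      Real.rpow_le_rpow_of_nonpos hX0 (by exact_mod_cast h.1.1) (by norm_num)
    have hL : (0 : ℝ) < (Fintype.card ι : ℝ) + 1 := by positivity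
    rw [norm_div, norm_mul, Complex.norm_real, Complex.norm_real, Real.norm_eq_abs,
      Real.norm_eq_abs, abs_of_pos hL, abs_of_nonneg (by positivity), div_le_iff₀ hL]
    calc ‖bp f p‖ * (p : ℝ) ^ (-(1 / 2) : ℝ)
        ≤ ((Fintype.card ι : ℝ) + 1) * (X : ℝ) ^ (-(1 / 2) : ℝ) := by
          gcongr
          linarith
      _ = _ := mul_comm _ _
  · rw [norm_zero]
    positivity

/-- the diagonal contribution of one prime -/
lemma diag_term (f : ι → Fac) (r : ℝ) (hr : ∀ l, (f l).r = r ∨ (f l).r = 1) (D T H W β : ℝ)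
    (hW : 0 < W) (X : ℕ) (hX : 1 ≤ X) (p : ℕ) (hp : p ∈ (Finset.Ico X (2 * X)).filter Nat.Prime)
    (hpT : Real.log p ≤ D * Real.log T) :
    ∃ m : ℝ, Real.exp (-(β ^ 2 * Real.log 2 ^ 2 / 4)) / (Fintype.card ι + 1) * (16 / 35 * W) *
        (‖bp f p‖ ^ 2 / p) ≤ m ∧
      ∑ z ∈ (TU f D T).filter (fun z => NN f z = 1 ∧ kk f z = p),
        (starRingEnd ℂ) (co f z) *
          ((Real.exp (-(β ^ 2 * (lam f z - Real.log X) ^ 2 / 4)) : ℝ) : ℂ) * rh f X p *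
          II H W (lam f z - Real.log p) = (m : ℂ) := by
  classical
  have hp' := hp
  rw [Finset.mem_filter, Finset.mem_Ico] at hp
  have hprime := hp.2
  have hX0 : (0 : ℝ) < X := by exact_mod_cast hX
  have hp0 : (0 : ℝ) < p := by exact_mod_cast hprime.pos
  set g : ℝ := Real.exp (-(β ^ 2 * (Real.log p - Real.log X) ^ 2 / 4)) with hg
  have hL : (0 : ℝ) < (Fintype.card ι : ℝ) + 1 := by positivity
  refine ⟨g / (Fintype.card ι + 1) * (16 / 35 * W) * (‖bp f p‖ ^ 2 / p), ?_, ?_⟩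
  · have h1 : Real.log X ≤ Real.log p := Real.log_le_log hX0 (by exact_mod_cast hp.1.1)
    have h2 : Real.log p ≤ Real.log 2 + Real.log X := by
      rw [← Real.log_mul two_ne_zero hX0.ne']
      refine Real.log_le_log hp0 ?_
      exact_mod_cast hp.1.2.le
    have h3 : (Real.log p - Real.log X) ^ 2 ≤ Real.log 2 ^ 2 :=
      pow_le_pow_left₀ (by linarith) (by linarith) 2
    have h4 : Real.exp (-(β ^ 2 * Real.log 2 ^ 2 / 4)) ≤ g := by
      rw [hg, Real.exp_le_exp]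
      have : β ^ 2 * (Real.log p - Real.log X) ^ 2 ≤ β ^ 2 * Real.log 2 ^ 2 := by gcongr
      linarith
    gcongr
  · have h5 : ∀ z ∈ (TU f D T).filter (fun z => NN f z = 1 ∧ kk f z = p),
        (starRingEnd ℂ) (co f z) *
          ((Real.exp (-(β ^ 2 * (lam f z - Real.log X) ^ 2 / 4)) : ℝ) : ℂ) * rh f X p *
          II H W (lam f z - Real.log p) =
        (starRingEnd ℂ) (co f z) * ((g : ℂ) * rh f X p * ((16 / 35 * W : ℝ) : ℂ)) := by
      intro z hz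
      rw [Finset.mem_filter] at hz
      have hlam : lam f z = Real.log p := by
        rw [lam_eq hr (TU_pos hz.1), hz.2.1, hz.2.2]
        simp
      rw [hlam, sub_self, II_zero H W hW, ← hg]
      ring
    rw [Finset.sum_congr rfl h5, ← Finset.sum_mul, ← map_sum,
      diag_sum f D T p hprime hpT, map_mul, Complex.conj_ofReal]
    unfold rh
    rw [if_pos hp']
    have h6 : (p : ℝ) ^ (-(1 / 2) : ℝ) * (p : ℝ) ^ (-(1 / 2) : ℝ) = 1 / p := by
      rw [← Real.rpow_add hp0]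
      norm_num
      rw [Real.rpow_neg_one]
    have h7 : (starRingEnd ℂ) (bp f p) * bp f p = ((‖bp f p‖ ^ 2 : ℝ) : ℂ) := by
      rw [mul_comm, Complex.mul_conj, Complex.normSq_eq_norm_sq]
    have h8 : (((p : ℝ) ^ (-(1 / 2) : ℝ) : ℝ) : ℂ) * (((p : ℝ) ^ (-(1 / 2) : ℝ) : ℝ) : ℂ) =
        ((1 / p : ℝ) : ℂ) := by
      rw [← Complex.ofReal_mul, h6]
    calc _ = ((starRingEnd ℂ) (bp f p) * bp f p) * ((((p : ℝ) ^ (-(1 / 2) : ℝ) : ℝ) : ℂ) *
          (((p : ℝ) ^ (-(1 / 2) : ℝ) : ℝ) : ℂ)) * ((g : ℂ) / ((Fintype.card ι + 1 : ℝ) : ℂ) *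
          ((16 / 35 * W : ℝ) : ℂ)) := by ring
      _ = _ := by
        rw [h7, h8]
        push_cast
        ring

/-- the terms off the diagonal -/
lemma off_sum (hNC : T_NC) {C : ℝ} (hC : 0 < C)
    (hI : ∀ H W Δ : ℝ, 0 < W → ‖II H W Δ‖ ≤ C * W ∧ (Δ ≠ 0 → ‖II H W Δ‖ ≤ C / (W * Δ ^ 2)))
    (f : ι → Fac) {r D T e B H W δ₀ : ℝ} (hr2 : 2 ≤ r) (hr : ∀ l, (f l).r = r ∨ (f l).r = 1)
    (hT : 1 ≤ T) (hW : 0 < W) (hB : 20 ≤ B) (h0 : 0 < δ₀) (h1 : δ₀ ≤ 1 / 10)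
    (hTB : 2 ^ Fintype.card ι * T ^ D ≤ B) (X : ℕ) (hX : 1 ≤ X) (hXB : 2 * (X : ℝ) ≤ B)
    (hfib : ∀ n : ℕ, n ≠ 0 → (((TU f D T).filter fun z => ∏ l, z l = n).card : ℝ) ≤ T ^ e)
    (g : (ι → ℕ) → ℝ) (hg : ∀ z, |g z| ≤ 1) (ρ : ℕ → ℂ)
    (hρ : ∀ p, ‖ρ p‖ ≤ (X : ℝ) ^ (-(1 / 2) : ℝ)) :
    ∑ p ∈ (Finset.Ico X (2 * X)).filter Nat.Prime,
      ∑ z ∈ (TU f D T).filter (fun z => ¬(NN f z = 1 ∧ kk f z = p)),
        ‖(starRingEnd ℂ) (co f z) * (g z : ℂ) * ρ p * II H W (lam f z - Real.log p)‖ ≤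
      (X : ℝ) ^ (-(1 / 2) : ℝ) * (X * (TU f D T).card * (C * B ^ 2 / W) +
        C * (T ^ e * (2 * Real.sqrt (Nat.sqrt (4 * X)) * (W * (1 + 100 * (X : ℝ) ^ 2 * δ₀) +
          1 / W * (2 / δ₀ ^ 2 + 4 * (100 * (X : ℝ) ^ 2) / δ₀))))) := by
  classical
  have hr1 : ∀ l, 1 ≤ (f l).r := fun l => by rcases hr l with h | h <;> rw [h]; linarith
  set P := (Finset.Ico X (2 * X)).filter Nat.Prime with hP
  have hXp : (0 : ℝ) ≤ (X : ℝ) ^ (-(1 / 2) : ℝ) := by positivity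
  have hterm : ∀ p ∈ P, ∀ z ∈ (TU f D T).filter (fun z => ¬(NN f z = 1 ∧ kk f z = p)),
      ‖(starRingEnd ℂ) (co f z) * (g z : ℂ) * ρ p * II H W (lam f z - Real.log p)‖ ≤
        (X : ℝ) ^ (-(1 / 2) : ℝ) * (C * B ^ 2 / W + C * hh r W δ₀ (NN f z) (kk f z) p) := by
    intro p hp z hz
    rw [hP, Finset.mem_filter, Finset.mem_Ico] at hp
    rw [Finset.mem_filter] at hz
    have hzp := TU_pos hz.1
    have hzB : ((∏ l, z l : ℕ) : ℝ) ≤ B := (TU_prod_le hr1 hT hz.1).trans hTB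
    have hpB : (p : ℝ) ≤ B := by
      have : (p : ℝ) ≤ 2 * X := by exact_mod_cast hp.1.2.le
      linarith
    have h2 := term_bound hC hI (H := H) (δ₀ := δ₀) hr hW hB h0 hzp hzB hp.2.one_lt.le hpB hz.2
    rw [norm_mul, norm_mul, norm_mul, RCLike.norm_conj, Complex.norm_real, Real.norm_eq_abs]
    calc ‖co f z‖ * |g z| * ‖ρ p‖ * ‖II H W (lam f z - Real.log p)‖
        ≤ ‖co f z‖ * 1 * (X : ℝ) ^ (-(1 / 2) : ℝ) * ‖II H W (lam f z - Real.log p)‖ := by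
          gcongr
          · exact hg z
          · exact hρ p
      _ = (X : ℝ) ^ (-(1 / 2) : ℝ) * (‖co f z‖ * ‖II H W (lam f z - Real.log p)‖) := by ring
      _ ≤ _ := by gcongr
  have hnn : ∀ p : ℕ, ∀ z ∈ TU f D T, 0 ≤ (X : ℝ) ^ (-(1 / 2) : ℝ) *
      (C * B ^ 2 / W + C * hh r W δ₀ (NN f z) (kk f z) p) := by
    intro p z _
    have := hh_nonneg (r := r) (δ₀ := δ₀) hW.le (NN f z) (kk f z) p
    positivity
  have hcardP : (P.card : ℝ) ≤ X := by
    have : P.card ≤ (Finset.Ico X (2 * X)).card := Finset.card_filter_le _ _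
    rw [Nat.card_Ico] at this
    have h3 : P.card ≤ X := by omega
    exact_mod_cast h3
  have hnear := near_sum hNC f (e := e) (D := D) hr2 (by linarith : 0 < T) hW h0 h1 X hX hfib
  calc _ ≤ ∑ p ∈ P, ∑ z ∈ (TU f D T).filter (fun z => ¬(NN f z = 1 ∧ kk f z = p)),
        (X : ℝ) ^ (-(1 / 2) : ℝ) * (C * B ^ 2 / W + C * hh r W δ₀ (NN f z) (kk f z) p) :=
        Finset.sum_le_sum fun p hp => Finset.sum_le_sum fun z hz => hterm p hp z hz
    _ ≤ ∑ p ∈ P, ∑ z ∈ TU f D T,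
        (X : ℝ) ^ (-(1 / 2) : ℝ) * (C * B ^ 2 / W + C * hh r W δ₀ (NN f z) (kk f z) p) := by
        refine Finset.sum_le_sum fun p _ => ?_
        exact Finset.sum_le_sum_of_subset_of_nonneg (Finset.filter_subset _ _)
          fun z hz _ => hnn p z hz
    _ = (X : ℝ) ^ (-(1 / 2) : ℝ) * (P.card * (TU f D T).card * (C * B ^ 2 / W) +
        C * ∑ z ∈ TU f D T, ∑ p ∈ P, hh r W δ₀ (NN f z) (kk f z) p) := by
        simp_rw [← Finset.mul_sum, Finset.sum_add_distrib, ← Finset.mul_sum]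
        rw [Finset.sum_comm (s := TU f D T)]
        simp only [Finset.sum_const, nsmul_eq_mul]
        ring
    _ ≤ _ := by
        refine mul_le_mul_of_nonneg_left (add_le_add ?_ ?_) hXp
        · gcongr
        · exact mul_le_mul_of_nonneg_left hnear hC.le

/-- **(DLB)** the lower bound. -/
theorem dlb (hE : T_DLE) (hIM : T_IM) (hNC : T_NC) : T_DLB := by
  classical
  intro ι _ f r x₁ x₂ D β ε hr2 hr hDen hx1 hx12 hx2D hD hβ hε
  have hr1 : ∀ l, 1 ≤ (f l).r := fun l => by rcases hr l with h | h <;> rw [h]; linarith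
  obtain ⟨C, hC, hI⟩ := hIM
  have hI' : ∀ H W Δ : ℝ, 0 < W →
      ‖II H W Δ‖ ≤ C * W ∧ (Δ ≠ 0 → ‖II H W Δ‖ ≤ C / (W * Δ ^ 2)) := hI
  have hD0 : 0 < D := by linarith
  set η : ℝ := min ε (min (x₁ / 16) (1 / 32)) with hη
  have hη0 : 0 < η := by
    rw [hη]
    refine lt_min hε (lt_min ?_ ?_)
    · linarith
    · norm_num
  have hη1 : η ≤ ε := min_le_left _ _
  have hη2 : η ≤ x₁ / 16 := (min_le_right _ _).trans (min_le_left _ _)
  have hη3 : η ≤ 1 / 32 := (min_le_right _ _).trans (min_le_right _ _)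
  obtain ⟨T₁, hT₁⟩ := hDen x₁ x₂ (η / 4) hx1 hx12 (by linarith)
  obtain ⟨T₂, hT₂⟩ := hE ι f D β hr1 hD0 (by linarith) hβ
  set L : ℕ := Fintype.card ι with hL
  set c₀ : ℝ := Real.exp (-(β ^ 2 * Real.log 2 ^ 2 / 4)) / (L + 1) * (16 / 35 * (1 / 2)) with hc₀
  have hc₀pos : 0 < c₀ := by positivity
  set K₁ : ℝ := C * (2 ^ (L + 1)) ^ 2 * 2 with hK₁
  set K₂ : ℝ := C * (3 * 860) with hK₂
  have hK₁0 : 0 < K₁ := by positivity
  have hK₂0 : 0 < K₂ := by positivity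
  have hev : ∀ᶠ T : ℝ in atTop, ∃ (X : ℕ) (ρ : ℕ → ℂ), T ^ x₁ ≤ X ∧ (X : ℝ) ≤ T ^ x₂ ∧
      (∀ p, ‖ρ p‖ ≤ (X : ℝ) ^ (-(1 / 2) : ℝ)) ∧
      T ^ (1 - ε) ≤ ‖∫ u in (5 * T / 4)..(5 * T / 4 + T / 2),
        (om ((u - 5 * T / 4) / (T / 2)) : ℂ) *
          (∑ j ∈ mains f 1 D T, LX f β (Real.log X) (Real.log T) j u) * TP X ρ u‖ := by
    filter_upwards [eventually_ge_atTop T₁, eventually_ge_atTop T₂, eventually_ge_atTop 1,
      TU_count f D η hr1 hD0 (by linarith) hη0, ev_rpow 2 x₂ D hx2D, ev_rpow 20 0 D hD0,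
      ev_rpow 10 0 (2 * x₂) (by linarith), ev_rpow (4 / c₀) (1 - η) (1 - η / 4) (by linarith),
      ev_rpow (4 / c₀) 0 (1 - η / 4) (by linarith),
      ev_rpow (4 / c₀ * (K₁ + K₂)) (1 - 3 * η) (1 - η / 4) (by linarith)]
      with T h1 h2 hT hcount h3 h4 h5 h6 h7 h8
    have hT0 : 0 < T := by linarith
    obtain ⟨X, hX1, hX2, hS⟩ := hT₁ T h1
    have hXR : (1 : ℝ) ≤ X := (Real.one_le_rpow hT hx1.le).trans hX1
    have hX : 1 ≤ X := by exact_mod_cast hXR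
    have hX0 : (0 : ℝ) < X := by linarith
    set W : ℝ := T / 2 with hW
    have hW0 : 0 < W := by positivity
    set H : ℝ := 5 * T / 4 with hH
    set ρ : ℕ → ℂ := rh f X with hρdef
    have hρ : ∀ p, ‖ρ p‖ ≤ (X : ℝ) ^ (-(1 / 2) : ℝ) := fun p => norm_rh_le f X p hX
    refine ⟨X, ρ, hX1, hX2, hρ, ?_⟩
    set ξ : ℝ := Real.log X with hξ
    set g : (ι → ℕ) → ℝ := fun z => Real.exp (-(β ^ 2 * (lam f z - ξ) ^ 2 / 4)) with hgdef
    have hg : ∀ z, |g z| ≤ 1 := by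
      intro z
      rw [hgdef]
      simp only
      rw [abs_of_pos (Real.exp_pos _), Real.exp_le_one_iff]
      have : 0 ≤ β ^ 2 * (lam f z - ξ) ^ 2 / 4 := by positivity
      linarith
    have hexp := expand f D T ξ β H W (T ^ (-5 : ℝ)) hW0 (by positivity) g X ρ hρ
      (fun u => hT₂ T h2 u ξ)
    set E : ℂ := ∫ u in H..(H + W), (om ((u - H) / W) : ℂ) *
          (∑ j ∈ mains f 1 D T, LX f β ξ (Real.log T) j u) * TP X ρ u with hEdef
    set P := (Finset.Ico X (2 * X)).filter Nat.Prime with hP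
    -- the double sum
    set t : (ι → ℕ) → ℕ → ℂ := fun z p =>
      (starRingEnd ℂ) (co f z) * (g z : ℂ) * ρ p * II H W (lam f z - Real.log p) with ht
    have hE0 : ∑ z ∈ TU f D T, ∑ p ∈ Finset.Ico X (2 * X), t z p =
        ∑ p ∈ P, ∑ z ∈ TU f D T, t z p := by
      rw [Finset.sum_comm]
      refine (Finset.sum_subset (Finset.filter_subset _ _) fun p _ hp => ?_).symm
      refine Finset.sum_eq_zero fun z _ => ?_
      have : ρ p = 0 := by
        rw [hρdef]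
        unfold rh
        rw [if_neg hp]
      rw [ht]
      simp only
      rw [this]
      ring
    have hlogp : ∀ p ∈ P, Real.log p ≤ D * Real.log T := by
      intro p hp
      rw [hP, Finset.mem_filter, Finset.mem_Ico] at hp
      have hp0 : (0 : ℝ) < p := by exact_mod_cast hp.2.pos
      rw [← Real.log_rpow hT0]
      refine Real.log_le_log hp0 ?_
      have h9 : (p : ℝ) ≤ 2 * X := by exact_mod_cast hp.1.2.le
      calc (p : ℝ) ≤ 2 * X := h9
        _ ≤ 2 * T ^ x₂ := by gcongr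
        _ ≤ T ^ D := h3
    choose! m hm1 hm2 using fun p (hp : p ∈ P) =>
      diag_term f r hr D T H W β hW0 X hX p hp (hlogp p hp)
    have hsplit : ∑ p ∈ P, ∑ z ∈ TU f D T, t z p = ((∑ p ∈ P, m p : ℝ) : ℂ) +
        ∑ p ∈ P, ∑ z ∈ (TU f D T).filter (fun z => ¬(NN f z = 1 ∧ kk f z = p)), t z p := by
      rw [Complex.ofReal_sum, ← Finset.sum_add_distrib]
      refine Finset.sum_congr rfl fun p hp => ?_
      rw [← Finset.sum_filter_add_sum_filter_not (TU f D T)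
        (fun z => NN f z = 1 ∧ kk f z = p), ← hm2 p hp]
    -- the off-diagonal terms
    have hT4 : T ^ D * 1 ≤ T ^ D := by linarith
    have hTD : (20 : ℝ) ≤ T ^ D := by
      rw [Real.rpow_zero, mul_one] at h4
      exact h4
    have h2L : (1 : ℝ) ≤ 2 ^ (L + 1) := one_le_pow₀ one_le_two
    have hTDL : T ^ D ≤ 2 ^ (L + 1) * T ^ D :=
      le_mul_of_one_le_left (by positivity) h2L
    have hB : 20 ≤ 2 ^ (L + 1) * T ^ D := hTD.trans hTDL
    have hT10 : (10 : ℝ) ≤ T ^ (2 * x₂) := by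
      rw [Real.rpow_zero, mul_one] at h5
      exact h5
    have hoff := off_sum hNC hC hI' f (D := D) (T := T) (e := η) (H := H) (W := W)
      (δ₀ := T ^ (-(2 * x₂))) (B := 2 ^ (L + 1) * T ^ D) hr2 hr hT hW0 hB (by positivity)
      (by
        rw [Real.rpow_neg hT0.le, ← one_div]
        exact one_div_le_one_div_of_le (by norm_num) hT10)
      (by
        have : (2 : ℝ) ^ L ≤ 2 ^ (L + 1) := pow_le_pow_right₀ one_le_two (by omega)
        gcongr) X hX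
      (by
        calc 2 * (X : ℝ) ≤ 2 * T ^ x₂ := by gcongr
          _ ≤ T ^ D := h3
          _ ≤ 2 ^ (L + 1) * T ^ D := hTDL)
      hcount.1 g hg ρ hρ
    -- numerical bounds
    have hXh : (X : ℝ) * (X : ℝ) ^ (-(1 / 2) : ℝ) = (X : ℝ) ^ (1 / 2 : ℝ) := by
      nth_rewrite 1 [← Real.rpow_one (X : ℝ)]
      rw [← Real.rpow_add hX0]
      norm_num
    have hXq : (X : ℝ) ^ (1 / 2 : ℝ) ≤ T ^ (1 / 4 : ℝ) := by
      calc (X : ℝ) ^ (1 / 2 : ℝ) ≤ (T ^ x₂) ^ (1 / 2 : ℝ) := by gcongr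
        _ = T ^ (x₂ * (1 / 2)) := by rw [← Real.rpow_mul hT0.le]
        _ ≤ T ^ (1 / 4 : ℝ) := Real.rpow_le_rpow_of_exponent_le hT (by linarith)
    have hpart1 : (X : ℝ) ^ (-(1 / 2) : ℝ) * (X * (TU f D T).card *
        (C * (2 ^ (L + 1) * T ^ D) ^ 2 / W)) ≤ K₁ * T ^ (1 - 3 * η) := by
      calc _ = ((X : ℝ) * (X : ℝ) ^ (-(1 / 2) : ℝ)) * (TU f D T).card *
            (C * (2 ^ (L + 1) * T ^ D) ^ 2 / W) := by ring
        _ ≤ T ^ (1 / 4 : ℝ) * T ^ (D + 2 * η) * (C * (2 ^ (L + 1) * T ^ D) ^ 2 / W) := by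
            rw [hXh]
            gcongr
            exact hcount.2
        _ = K₁ * (T ^ (1 / 4 : ℝ) * T ^ (D + 2 * η) * (T ^ D * T ^ D) * T ^ (-1 : ℝ)) := by
            rw [hK₁, hW, Real.rpow_neg_one]
            field_simp
        _ = K₁ * T ^ (1 / 4 + (D + 2 * η) + (D + D) + (-1)) := by
            rw [← Real.rpow_add hT0 D D, ← Real.rpow_add hT0 (1 / 4) _, ← Real.rpow_add hT0,
              ← Real.rpow_add hT0]
        _ ≤ K₁ * T ^ (1 - 3 * η) :=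
            mul_le_mul_of_nonneg_left
              (Real.rpow_le_rpow_of_exponent_le hT (by linarith)) hK₁0.le
    have hXX : (X : ℝ) ^ 2 ≤ T ^ (2 * x₂) := by
      calc (X : ℝ) ^ 2 ≤ (T ^ x₂) ^ 2 := by gcongr
        _ = T ^ (2 * x₂) := by
          rw [← Real.rpow_natCast, ← Real.rpow_mul hT0.le]
          congr 1
          push_cast
          ring
    have hδX : (X : ℝ) ^ 2 * T ^ (-(2 * x₂)) ≤ 1 := by
      calc (X : ℝ) ^ 2 * T ^ (-(2 * x₂)) ≤ T ^ (2 * x₂) * T ^ (-(2 * x₂)) := by gcongr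
        _ = 1 := by rw [← Real.rpow_add hT0]; simp
    have hinv : 1 / T ^ (-(2 * x₂)) = T ^ (2 * x₂) := by
      rw [Real.rpow_neg hT0.le, one_div, inv_inv]
    have hTT : T ^ (2 * x₂) * T ^ (2 * x₂) ≤ T * T := by
      have : T ^ (2 * x₂) ≤ T ^ (1 : ℝ) := Real.rpow_le_rpow_of_exponent_le hT (by linarith)
      rw [Real.rpow_one] at this
      gcongr
    have hQ : W * (1 + 100 * (X : ℝ) ^ 2 * T ^ (-(2 * x₂))) +
        1 / W * (2 / (T ^ (-(2 * x₂))) ^ 2 + 4 * (100 * (X : ℝ) ^ 2) / T ^ (-(2 * x₂))) ≤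
        860 * T := by
      have e1 : 2 / (T ^ (-(2 * x₂))) ^ 2 = 2 * (T ^ (2 * x₂) * T ^ (2 * x₂)) := by
        rw [← hinv]
        field_simp
      have e2 : 4 * (100 * (X : ℝ) ^ 2) / T ^ (-(2 * x₂)) = 400 * (X : ℝ) ^ 2 * T ^ (2 * x₂) := by
        rw [← hinv]
        ring
      rw [e1, e2]
      have e3 : 400 * (X : ℝ) ^ 2 * T ^ (2 * x₂) ≤ 400 * (T * T) := by
        calc 400 * (X : ℝ) ^ 2 * T ^ (2 * x₂) ≤ 400 * T ^ (2 * x₂) * T ^ (2 * x₂) := by gcongr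
          _ = 400 * (T ^ (2 * x₂) * T ^ (2 * x₂)) := by ring
          _ ≤ _ := by gcongr
      have e4 : 1 / W * (2 * (T ^ (2 * x₂) * T ^ (2 * x₂)) + 400 * (X : ℝ) ^ 2 * T ^ (2 * x₂)) ≤
          1 / W * (402 * (T * T)) := by
        refine mul_le_mul_of_nonneg_left ?_ (by positivity)
        linarith
      have e5 : 1 / W * (402 * (T * T)) = 804 * T := by
        rw [hW]
        field_simp
        norm_num
      have e6 : W * (1 + 100 * (X : ℝ) ^ 2 * T ^ (-(2 * x₂))) ≤ W * 101 := by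
        refine mul_le_mul_of_nonneg_left ?_ hW0.le
        linarith
      have e7 : W * 101 = 101 / 2 * T := by rw [hW]; ring
      linarith
    have hsq : Real.sqrt (Nat.sqrt (4 * X)) ≤ 3 / 2 * (X : ℝ) ^ (1 / 4 : ℝ) := by
      rw [Real.sqrt_le_left (by positivity)]
      have e1 : ((Nat.sqrt (4 * X) : ℕ) : ℝ) ≤ 2 * (X : ℝ) ^ (1 / 2 : ℝ) := by
        have e2 : ((Nat.sqrt (4 * X) : ℕ) : ℝ) ^ 2 ≤ 4 * X := by
          have := Nat.sqrt_le' (4 * X)
          exact_mod_cast this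
        have e3 : (2 * (X : ℝ) ^ (1 / 2 : ℝ)) ^ 2 = 4 * X := by
          rw [mul_pow, ← Real.rpow_natCast ((X : ℝ) ^ (1 / 2 : ℝ)), ← Real.rpow_mul hX0.le]
          norm_num
        rw [← e3] at e2
        exact le_of_sq_le_sq e2 (by positivity)
      have e4 : (3 / 2 * (X : ℝ) ^ (1 / 4 : ℝ)) ^ 2 = 9 / 4 * (X : ℝ) ^ (1 / 2 : ℝ) := by
        rw [mul_pow, ← Real.rpow_natCast ((X : ℝ) ^ (1 / 4 : ℝ)), ← Real.rpow_mul hX0.le]
        norm_num
      rw [e4]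
      have e5 : 0 ≤ (X : ℝ) ^ (1 / 2 : ℝ) := by positivity
      linarith
    have hpart2 : (X : ℝ) ^ (-(1 / 2) : ℝ) * (C * (T ^ η * (2 * Real.sqrt (Nat.sqrt (4 * X)) *
        (W * (1 + 100 * (X : ℝ) ^ 2 * T ^ (-(2 * x₂))) +
        1 / W * (2 / (T ^ (-(2 * x₂))) ^ 2 + 4 * (100 * (X : ℝ) ^ 2) / T ^ (-(2 * x₂))))))) ≤
        K₂ * T ^ (1 - 3 * η) := by
      calc _ ≤ (X : ℝ) ^ (-(1 / 2) : ℝ) * (C * (T ^ η *
            (2 * (3 / 2 * (X : ℝ) ^ (1 / 4 : ℝ)) * (860 * T)))) := by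
            refine mul_le_mul_of_nonneg_left ?_ (by positivity)
            refine mul_le_mul_of_nonneg_left ?_ (by positivity)
            refine mul_le_mul_of_nonneg_left ?_ (by positivity)
            refine mul_le_mul ?_ hQ (by positivity) (by positivity)
            exact mul_le_mul_of_nonneg_left hsq (by norm_num)
        _ = K₂ * ((X : ℝ) ^ (-(1 / 2) : ℝ) * (X : ℝ) ^ (1 / 4 : ℝ) * (T ^ η * T)) := by
            rw [hK₂]
            ring
        _ = K₂ * ((X : ℝ) ^ (-(1 / 4) : ℝ) * T ^ (1 + η)) := by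
            have q1 : (X : ℝ) ^ (-(1 / 2) : ℝ) * (X : ℝ) ^ (1 / 4 : ℝ) =
                (X : ℝ) ^ (-(1 / 4) : ℝ) := by
              rw [← Real.rpow_add hX0]
              norm_num
            have q2 : T ^ η * T = T ^ (1 + η) := by
              rw [add_comm, Real.rpow_add hT0, Real.rpow_one]
            rw [q1, q2]
        _ ≤ K₂ * ((T ^ x₁) ^ (-(1 / 4) : ℝ) * T ^ (1 + η)) := by
            refine mul_le_mul_of_nonneg_left ?_ hK₂0.le
            refine mul_le_mul_of_nonneg_right ?_ (by positivity)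
            exact Real.rpow_le_rpow_of_nonpos (by positivity) hX1 (by norm_num)
        _ = K₂ * T ^ (x₁ * (-(1 / 4)) + (1 + η)) := by
            rw [← Real.rpow_mul hT0.le, ← Real.rpow_add hT0]
        _ ≤ K₂ * T ^ (1 - 3 * η) :=
            mul_le_mul_of_nonneg_left
              (Real.rpow_le_rpow_of_exponent_le hT (by linarith)) hK₂0.le
    have hOff : ‖∑ p ∈ P, ∑ z ∈ (TU f D T).filter (fun z => ¬(NN f z = 1 ∧ kk f z = p)), t z p‖ ≤
        (K₁ + K₂) * T ^ (1 - 3 * η) := by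
      refine (norm_sum_le _ _).trans ((Finset.sum_le_sum fun p _ => norm_sum_le _ _).trans ?_)
      refine hoff.trans ?_
      rw [mul_add, add_mul]
      exact add_le_add hpart1 hpart2
    -- the main term
    have hMain : c₀ * T ^ (1 - η / 4) ≤ ∑ p ∈ P, m p := by
      calc c₀ * T ^ (1 - η / 4) = c₀ * T * T ^ (-(η / 4)) := by
            rw [sub_eq_add_neg, Real.rpow_add hT0, Real.rpow_one]
            ring
        _ ≤ c₀ * T * ∑ p ∈ P, ‖bp f p‖ ^ 2 / p := by gcongr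
        _ = ∑ p ∈ P, c₀ * T * (‖bp f p‖ ^ 2 / p) := by rw [Finset.mul_sum]
        _ ≤ ∑ p ∈ P, m p := by
            refine Finset.sum_le_sum fun p hp => le_trans (le_of_eq ?_) (hm1 p hp)
            rw [hc₀, hW]
            ring
    -- conclusion
    have hsmall : T ^ (-5 : ℝ) * ((X : ℝ) * (X : ℝ) ^ (-(1 / 2) : ℝ)) * W ≤ 1 := by
      calc _ ≤ T ^ (-5 : ℝ) * T ^ (1 / 4 : ℝ) * T := by
            rw [hXh]
            gcongr
            rw [hW]
            linarith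
        _ = T ^ (-5 + 1 / 4 + 1 : ℝ) := by
            rw [Real.rpow_add hT0, Real.rpow_add hT0, Real.rpow_one]
        _ ≤ 1 := Real.rpow_le_one_of_one_le_of_nonpos hT (by norm_num)
    rw [hE0, hsplit] at hexp
    set Off := ∑ p ∈ P, ∑ z ∈ (TU f D T).filter (fun z => ¬(NN f z = 1 ∧ kk f z = p)), t z p
    have hm0 : 0 ≤ ∑ p ∈ P, m p := le_trans (by positivity) hMain
    have hnorm : ‖((∑ p ∈ P, m p : ℝ) : ℂ)‖ = ∑ p ∈ P, m p := by
      rw [Complex.norm_real, Real.norm_eq_abs, abs_of_nonneg hm0]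
    have htri : ‖((∑ p ∈ P, m p : ℝ) : ℂ)‖ ≤
        ‖E‖ + ‖E - (((∑ p ∈ P, m p : ℝ) : ℂ) + Off)‖ + ‖Off‖ := by
      have : ((∑ p ∈ P, m p : ℝ) : ℂ) =
          E - (E - (((∑ p ∈ P, m p : ℝ) : ℂ) + Off)) - Off := by ring
      calc ‖((∑ p ∈ P, m p : ℝ) : ℂ)‖
          = ‖E - (E - (((∑ p ∈ P, m p : ℝ) : ℂ) + Off)) - Off‖ := by rw [← this]
        _ ≤ ‖E - (E - (((∑ p ∈ P, m p : ℝ) : ℂ) + Off))‖ + ‖Off‖ := norm_sub_le _ _
        _ ≤ _ := by
            have := norm_sub_le E (E - (((∑ p ∈ P, m p : ℝ) : ℂ) + Off))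
            linarith
    rw [hnorm] at htri
    have hc4 : ∀ a b : ℝ, 4 / c₀ * a ≤ b → a ≤ c₀ / 4 * b := by
      intro a b hab
      have : c₀ / 4 * (4 / c₀ * a) ≤ c₀ / 4 * b := by gcongr
      have h9 : c₀ / 4 * (4 / c₀ * a) = a := by field_simp
      linarith
    have f1 := hc4 _ _ h6
    have f2 := hc4 _ _ h7
    have f3 := hc4 ((K₁ + K₂) * T ^ (1 - 3 * η)) (T ^ (1 - η / 4)) (by
      rw [← mul_assoc]; exact h8)
    rw [Real.rpow_zero] at f2
    have f4 : 0 ≤ T ^ (1 - η / 4) := by positivity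
    have f5 : T ^ (1 - η) ≤ ‖E‖ := by
      have hee := hexp.trans hsmall
      linarith
    refine le_trans ?_ f5
    exact Real.rpow_le_rpow_of_exponent_le hT (by linarith)
  exact eventually_atTop.1 hev

end Pool.Agent.H39.DP
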