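import Pool.Agent.H31.DP.Targets

/-!
The iterated difference of `1 / x` over a nondegenerate cube is not zero.
-/

set_option autoImplicit false

open Finset

namespace Pool.Agent.H39.DP

open Pool.Agent.H31.DP
open Pool.Agent.H24.T2 (cub)

/-- The size of the numerator and of the denominator. -/
theorem dl_rat (n : ℕ) : ∀ (A : Finset ℤ) (t : Fin n → ℤ) (p : ℤ) (φ : ℤ → ℝ) (B c : ℕ),
    p ∈ cub n A t →
    (∀ x ∈ A, ∃ (a : ℤ) (b : ℕ), 0 < b ∧ b ≤ B ∧ |a| ≤ (c : ℤ) * B ∧ φ x = (a : ℝ) / b) →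
    ∃ (a : ℤ) (b : ℕ), 0 < b ∧ b ≤ B ^ (2 ^ n) ∧ |a| ≤ 2 ^ n * (c : ℤ) * (B : ℤ) ^ (2 ^ n) ∧
      dl n t φ p = (a : ℝ) / b := by
  induction n with
  | zero =>
    intro A t p φ B c hp h
    obtain ⟨a, b, h1, h2, h3, h4⟩ := h p hp
    exact ⟨a, b, h1, by simpa using h2, by simpa using h3, h4⟩
  | succ n ih =>
    intro A t p φ B c hp h
    have h0 := ih (A.filter (fun n => n + t 0 ∈ A)) (Fin.tail t) p (fun x => φ x - φ (x + t 0))
      (B ^ 2) (2 * c) hp ?_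
    · obtain ⟨a, b, h1, h2, h3, h4⟩ := h0
      refine ⟨a, b, h1, ?_, ?_, h4⟩
      · rwa [← pow_mul, ← pow_succ'] at h2
      · push_cast at h3
        rw [← pow_mul, ← pow_succ'] at h3
        calc |a| ≤ 2 ^ n * (2 * (c : ℤ)) * (B : ℤ) ^ 2 ^ (n + 1) := h3
          _ = 2 ^ (n + 1) * (c : ℤ) * (B : ℤ) ^ 2 ^ (n + 1) := by ring
    · intro x hx
      rw [Finset.mem_filter] at hx
      obtain ⟨a, b, h1, h2, h3, h4⟩ := h x hx.1
      obtain ⟨a', b', h1', h2', h3', h4'⟩ := h (x + t 0) hx.2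
      have hb : (b : ℝ) ≠ 0 := by exact_mod_cast h1.ne'
      have hb' : (b' : ℝ) ≠ 0 := by exact_mod_cast h1'.ne'
      refine ⟨a * b' - b * a', b * b', Nat.mul_pos h1 h1', ?_, ?_, ?_⟩
      · rw [sq]
        exact Nat.mul_le_mul h2 h2'
      · have e1 : |a * (b' : ℤ)| ≤ (c : ℤ) * B * B := by
          rw [abs_mul, Nat.abs_cast]
          exact mul_le_mul h3 (by exact_mod_cast h2') (by positivity) (by positivity)
        have e2 : |(b : ℤ) * a'| ≤ (c : ℤ) * B * B := by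
          rw [abs_mul, Nat.abs_cast, mul_comm]
          exact mul_le_mul h3' (by exact_mod_cast h2) (by positivity) (by positivity)
        calc |a * (b' : ℤ) - b * a'| ≤ |a * (b' : ℤ)| + |(b : ℤ) * a'| := abs_sub _ _
          _ ≤ (c : ℤ) * B * B + (c : ℤ) * B * B := add_le_add e1 e2
          _ = ((2 * c : ℕ) : ℤ) * ((B ^ 2 : ℕ) : ℤ) := by push_cast; ring
      · simp only [h4, h4']
        push_cast
        rw [div_sub_div _ _ hb hb']

/-- The integral representation. -/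
theorem dl_int (n : ℕ) : ∀ (A : Finset ℤ) (t : Fin n → ℤ) (p : ℤ) (φ : ℤ → ℝ) (w : ℝ → ℝ),
    p ∈ cub n A t →
    (∀ x ∈ A, ∃ g : ℝ → ℝ, Continuous g ∧
      (∀ r ∈ Set.Ioo (0 : ℝ) 1, g r = r ^ (x - 1) * w r) ∧ φ x = ∫ r in (0 : ℝ)..1, g r) →
    ∃ g : ℝ → ℝ, Continuous g ∧
      (∀ r ∈ Set.Ioo (0 : ℝ) 1, g r = r ^ (p - 1) * (w r * ∏ i, (1 - r ^ (t i)))) ∧
      dl n t φ p = ∫ r in (0 : ℝ)..1, g r := by
  induction n with
  | zero =>
    intro A t p φ w hp h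
    obtain ⟨g, h1, h2, h3⟩ := h p hp
    refine ⟨g, h1, fun r hr => ?_, h3⟩
    rw [h2 r hr, Finset.univ_eq_empty, Finset.prod_empty, mul_one]
  | succ n ih =>
    intro A t p φ w hp h
    have h0 := ih (A.filter (fun n => n + t 0 ∈ A)) (Fin.tail t) p (fun x => φ x - φ (x + t 0))
      (fun r => w r * (1 - r ^ (t 0))) hp ?_
    · obtain ⟨g, h1, h2, h3⟩ := h0
      refine ⟨g, h1, fun r hr => ?_, h3⟩
      rw [h2 r hr, Fin.prod_univ_succ]
      simp only [Fin.tail, mul_assoc]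
    · intro x hx
      rw [Finset.mem_filter] at hx
      obtain ⟨g, h1, h2, h3⟩ := h x hx.1
      obtain ⟨g', h1', h2', h3'⟩ := h (x + t 0) hx.2
      refine ⟨fun r => g r - g' r, h1.sub h1', fun r hr => ?_, ?_⟩
      · have hr0 : r ≠ 0 := hr.1.ne'
        show g r - g' r = _
        rw [h2 r hr, h2' r hr, show x + t 0 - 1 = (x - 1) + t 0 by ring, zpow_add₀ hr0]
        ring
      · show φ x - φ (x + t 0) = _
        rw [h3, h3', intervalIntegral.integral_sub (h1.intervalIntegrable _ _)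
          (h1'.intervalIntegrable _ _)]

/-- The value at a positive integer. -/
theorem inv_int (x : ℤ) (hx : 0 < x) : ∃ g : ℝ → ℝ, Continuous g ∧
    (∀ r ∈ Set.Ioo (0 : ℝ) 1, g r = r ^ (x - 1) * (fun _ : ℝ => (1 : ℝ)) r) ∧
      1 / (x : ℝ) = ∫ r in (0 : ℝ)..1, g r := by
  obtain ⟨k, hk⟩ : ∃ k : ℕ, x = k + 1 := ⟨(x - 1).toNat, by omega⟩
  subst hk
  refine ⟨fun r => r ^ k, by fun_prop, fun r _ => ?_, ?_⟩
  · rw [add_sub_cancel_right, zpow_natCast, mul_one]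
  · rw [integral_pow]
    push_cast
    simp

/-- The sign of the product. -/
theorem prod_sign {n : ℕ} (t : Fin n → ℤ) (ht : ∀ i, t i ≠ 0) :
    ∃ σ : ℝ, ∀ r ∈ Set.Ioo (0 : ℝ) 1, 0 < σ * ∏ i, (1 - r ^ (t i)) := by
  refine ⟨∏ i, (if 0 < t i then (1 : ℝ) else -1), fun r hr => ?_⟩
  rw [← Finset.prod_mul_distrib]
  apply Finset.prod_pos
  intro i _
  split_ifs with h
  · rw [one_mul, sub_pos]
    exact zpow_lt_one₀ hr.1 hr.2 h
  · have h1 : 1 < r ^ (t i) := by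
      have h2 : 0 < -t i := by
        have := ht i
        omega
      have h3 : r ^ (-t i) < 1 := zpow_lt_one₀ hr.1 hr.2 h2
      rw [zpow_neg] at h3
      exact (inv_lt_one₀ (zpow_pos hr.1 _)).1 h3
    linarith

theorem pf_ND : StatementND := by
  intro n B A t p hA ht hp
  obtain ⟨a, b, h1, h2, h3, h4⟩ := dl_rat n A t p (fun x => 1 / (x : ℝ)) B 1 hp (by
    intro x hx
    obtain ⟨hx0, hxB⟩ := hA x hx
    refine ⟨1, x.toNat, by omega, by omega, ?_, ?_⟩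
    · rw [abs_one]
      push_cast
      omega
    · have h : ((x.toNat : ℕ) : ℝ) = (x : ℝ) := by
        have : ((x.toNat : ℕ) : ℤ) = x := Int.toNat_of_nonneg hx0.le
        exact_mod_cast this
      rw [h]
      push_cast
      rfl)
  obtain ⟨g, g1, g2, g3⟩ := dl_int n A t p (fun x => 1 / (x : ℝ)) (fun _ => 1) hp
    (fun x hx => inv_int x (hA x hx).1)
  obtain ⟨σ, hσ⟩ := prod_sign t ht
  refine ⟨a, b, ?_, h1, h2, by simpa using h3, h4⟩
  rintro rfl
  rw [h4] at g3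
  have hpos : 0 < ∫ r in (0 : ℝ)..1, σ * g r := by
    refine intervalIntegral.intervalIntegral_pos_of_pos_on
      ((g1.const_mul σ).intervalIntegrable _ _) (fun r hr => ?_) zero_lt_one
    rw [g2 r hr]
    have h5 : 0 < r ^ (p - 1) := zpow_pos hr.1 _
    have h6 := hσ r hr
    calc (0 : ℝ) < r ^ (p - 1) * (σ * ∏ i, (1 - r ^ (t i))) := mul_pos h5 h6
      _ = σ * (r ^ (p - 1) * (1 * ∏ i, (1 - r ^ (t i)))) := by ring
  rw [intervalIntegral.integral_const_mul, ← g3] at hpos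
  simp at hpos

end Pool.Agent.H39.DP
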