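import Pool.Agent.H25.DP.Targets3
import Pool.Agent.H89.Cubic.Div

/-!
# Two dilations, lower bound (DLB), part a: counting lemmas
-/

set_option autoImplicit false

open Complex MeasureTheory Set Filter Topology

namespace Pool.Agent.H39.DP

open Pool.Agent.H25.DL Pool.Agent.H25.DP

/-! ### Geometric sums and dyadic layers -/

lemma geo_two (J : ℕ) : ∑ j ∈ Finset.Icc 1 J, (1 / 2 : ℝ) ^ j = 1 - (1 / 2) ^ J := by
  induction J with
  | zero => simp
  | succ n ih =>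
    rw [Finset.sum_Icc_succ_top (by omega), ih, pow_succ]
    ring

lemma geo_four (J : ℕ) : ∑ j ∈ Finset.Icc 1 J, (1 / 4 : ℝ) ^ j = (1 - (1 / 4) ^ J) / 3 := by
  induction J with
  | zero => simp
  | succ n ih =>
    rw [Finset.sum_Icc_succ_top (by omega), ih, pow_succ]
    ring

open Classical in
lemma layer {α : Type*} (A : Finset α) (Δ : α → ℝ) (K δ₀ : ℝ) (hK : 0 ≤ K) (h0 : 0 < δ₀)
    (hc : ∀ δ : ℝ, 0 < δ → δ ≤ 1 / 10 →
      ((A.filter fun a => |Δ a| ≤ δ).card : ℝ) ≤ 1 + K * δ) :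
    ∑ a ∈ A.filter (fun a => δ₀ < |Δ a| ∧ |Δ a| ≤ 1 / 20), 1 / Δ a ^ 2 ≤
      2 / δ₀ ^ 2 + 4 * K / δ₀ := by
  have hex : ∃ n : ℕ, 1 / 20 ≤ 2 ^ n * δ₀ := by
    obtain ⟨n, hn⟩ := pow_unbounded_of_one_lt (1 / 20 / δ₀) (one_lt_two : (1 : ℝ) < 2)
    refine ⟨n, ?_⟩
    rw [div_lt_iff₀ h0] at hn
    exact hn.le
  set J := Nat.find hex with hJ
  have hJ1 : 1 / 20 ≤ 2 ^ J * δ₀ := Nat.find_spec hex
  have hJ2 : ∀ j < J, 2 ^ j * δ₀ < 1 / 20 := fun j hj => by
    have := Nat.find_min hex hj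
    push Not at this
    exact this
  have hle : ∀ j ∈ Finset.Icc 1 J, 2 ^ j * δ₀ ≤ 1 / 10 := by
    intro j hj
    rw [Finset.mem_Icc] at hj
    have h1 := hJ2 (j - 1) (by omega)
    have h2 : (2 : ℝ) ^ j = 2 ^ (j - 1) * 2 := by
      rw [← pow_succ]
      congr 1
      omega
    rw [h2]
    linarith
  have key : ∀ a ∈ A.filter (fun a => δ₀ < |Δ a| ∧ |Δ a| ≤ 1 / 20), 1 / Δ a ^ 2 ≤
      ∑ j ∈ Finset.Icc 1 J, if |Δ a| ≤ 2 ^ j * δ₀ then 4 / (2 ^ j * δ₀) ^ 2 else 0 := by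
    intro a ha
    rw [Finset.mem_filter] at ha
    obtain ⟨_, ha1, ha2⟩ := ha
    have hex2 : ∃ n : ℕ, |Δ a| ≤ 2 ^ n * δ₀ := ⟨J, ha2.trans hJ1⟩
    set j := Nat.find hex2 with hj
    have hj1 : |Δ a| ≤ 2 ^ j * δ₀ := Nat.find_spec hex2
    have hj0 : j ≠ 0 := by
      intro h
      rw [h] at hj1
      simp at hj1
      linarith
    have hjJ : j ≤ J := Nat.find_min' hex2 (ha2.trans hJ1)
    have hj2 : 2 ^ (j - 1) * δ₀ < |Δ a| := by
      have := Nat.find_min hex2 (m := j - 1) (by omega)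
      push Not at this
      exact this
    have h3 : (2 : ℝ) ^ j = 2 ^ (j - 1) * 2 := by
      rw [← pow_succ]
      congr 1
      omega
    have h4 : 2 ^ j * δ₀ < 2 * |Δ a| := by rw [h3]; linarith
    have hpos : 0 < 2 ^ j * δ₀ := by positivity
    have h5 : 1 / Δ a ^ 2 ≤ 4 / (2 ^ j * δ₀) ^ 2 := by
      have hΔ : 0 < Δ a ^ 2 := by
        have : 0 < |Δ a| := h0.trans ha1
        rw [← sq_abs]
        positivity
      rw [div_le_div_iff₀ hΔ (by positivity)]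
      have : (2 ^ j * δ₀) ^ 2 ≤ (2 * |Δ a|) ^ 2 := pow_le_pow_left₀ hpos.le h4.le 2
      rw [mul_pow 2 |Δ a|, sq_abs] at this
      linarith
    refine h5.trans ?_
    have h6 : 4 / (2 ^ j * δ₀) ^ 2 =
        if |Δ a| ≤ 2 ^ j * δ₀ then 4 / (2 ^ j * δ₀) ^ 2 else 0 := by rw [if_pos hj1]
    rw [h6]
    refine Finset.single_le_sum
      (f := fun j => if |Δ a| ≤ 2 ^ j * δ₀ then 4 / (2 ^ j * δ₀) ^ 2 else 0)
      (fun i _ => ?_) (Finset.mem_Icc.2 ⟨by omega, hjJ⟩)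
    split_ifs
    · positivity
    · exact le_rfl
  have h7 : ∀ j ∈ Finset.Icc 1 J,
      (∑ a ∈ A.filter (fun a => δ₀ < |Δ a| ∧ |Δ a| ≤ 1 / 20),
        if |Δ a| ≤ 2 ^ j * δ₀ then 4 / (2 ^ j * δ₀) ^ 2 else 0) ≤
      4 / δ₀ ^ 2 * (1 / 4) ^ j + 4 * K / δ₀ * (1 / 2) ^ j := by
    intro j hj
    have hpos : 0 < 2 ^ j * δ₀ := by positivity
    rw [← Finset.sum_filter, Finset.sum_const, nsmul_eq_mul]
    have h8 : (((A.filter (fun a => δ₀ < |Δ a| ∧ |Δ a| ≤ 1 / 20)).filter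
        (fun a => |Δ a| ≤ 2 ^ j * δ₀)).card : ℝ) ≤ 1 + K * (2 ^ j * δ₀) := by
      refine le_trans ?_ (hc _ hpos (hle j hj))
      have : (A.filter (fun a => δ₀ < |Δ a| ∧ |Δ a| ≤ 1 / 20)).filter
        (fun a => |Δ a| ≤ 2 ^ j * δ₀) ⊆ A.filter (fun a => |Δ a| ≤ 2 ^ j * δ₀) := by
        intro a ha
        rw [Finset.mem_filter, Finset.mem_filter] at ha
        exact Finset.mem_filter.2 ⟨ha.1.1, ha.2⟩
      exact_mod_cast Finset.card_le_card this
    calc _ ≤ (1 + K * (2 ^ j * δ₀)) * (4 / (2 ^ j * δ₀) ^ 2) := by gcongr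
      _ = 4 / δ₀ ^ 2 * (1 / 4) ^ j + 4 * K / δ₀ * (1 / 2) ^ j := by
        have h9 : ((2 : ℝ) ^ j) ^ 2 = 4 ^ j := by
          rw [← pow_mul, mul_comm, pow_mul]
          norm_num
        rw [one_div_pow, one_div_pow, mul_pow, h9]
        have h10 : (4 : ℝ) ^ j = 2 ^ j * 2 ^ j := by rw [← h9]; ring
        rw [h10]
        have h11 : (2 : ℝ) ^ j ≠ 0 := by positivity
        field_simp
  calc _ ≤ ∑ a ∈ A.filter (fun a => δ₀ < |Δ a| ∧ |Δ a| ≤ 1 / 20),
        ∑ j ∈ Finset.Icc 1 J, (if |Δ a| ≤ 2 ^ j * δ₀ then 4 / (2 ^ j * δ₀) ^ 2 else 0) :=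
        Finset.sum_le_sum key
    _ = ∑ j ∈ Finset.Icc 1 J, ∑ a ∈ A.filter (fun a => δ₀ < |Δ a| ∧ |Δ a| ≤ 1 / 20),
        (if |Δ a| ≤ 2 ^ j * δ₀ then 4 / (2 ^ j * δ₀) ^ 2 else 0) := Finset.sum_comm
    _ ≤ ∑ j ∈ Finset.Icc 1 J, (4 / δ₀ ^ 2 * (1 / 4) ^ j + 4 * K / δ₀ * (1 / 2) ^ j) :=
        Finset.sum_le_sum h7
    _ = 4 / δ₀ ^ 2 * ((1 - (1 / 4) ^ J) / 3) + 4 * K / δ₀ * (1 - (1 / 2) ^ J) := by
        rw [Finset.sum_add_distrib, ← Finset.mul_sum, ← Finset.mul_sum, geo_two, geo_four]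
    _ ≤ 2 / δ₀ ^ 2 + 4 * K / δ₀ := by
        have h12 : (0 : ℝ) ≤ (1 / 4) ^ J := by positivity
        have h13 : (0 : ℝ) ≤ (1 / 2) ^ J := by positivity
        have h14 : 4 / δ₀ ^ 2 * ((1 - (1 / 4) ^ J) / 3) ≤ 4 / δ₀ ^ 2 * (1 / 2) := by
          refine mul_le_mul_of_nonneg_left ?_ (by positivity)
          linarith
        have h15 : 4 * K / δ₀ * (1 - (1 / 2) ^ J) ≤ 4 * K / δ₀ * 1 := by
          gcongr
          linarith
        have h16 : 4 / δ₀ ^ 2 * (1 / 2) = 2 / δ₀ ^ 2 := by ring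
        linarith

/-- a sum of `N^{-1/2}` -/
lemma sum_inv_sqrt (m : ℕ) : ∑ n ∈ Finset.Icc 2 m, (n : ℝ) ^ (-(1 / 2) : ℝ) ≤
    2 * Real.sqrt m := by
  induction m with
  | zero => simp
  | succ m ih =>
    rcases Nat.lt_or_ge m 1 with h | h
    · have : m = 0 := by omega
      subst this
      simp
    · rw [Finset.sum_Icc_succ_top (by omega)]
      have h1 : (0 : ℝ) < (m + 1 : ℕ) := by positivity
      have h2 : ((m + 1 : ℕ) : ℝ) ^ (-(1 / 2) : ℝ) = 1 / Real.sqrt (m + 1 : ℕ) := by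
        rw [Real.rpow_neg h1.le, ← Real.sqrt_eq_rpow, one_div]
      rw [h2]
      set s := Real.sqrt (m : ℝ)
      set t := Real.sqrt ((m + 1 : ℕ) : ℝ)
      have hs : s ^ 2 = m := Real.sq_sqrt (by positivity)
      have ht : t ^ 2 = m + 1 := by
        have h9 : t ^ 2 = ((m + 1 : ℕ) : ℝ) := Real.sq_sqrt h1.le
        rw [h9]
        push_cast
        rfl
      have ht0 : 0 < t := Real.sqrt_pos.2 h1
      have hs0 : 0 ≤ s := Real.sqrt_nonneg _
      have hst : s ≤ t := Real.sqrt_le_sqrt (by push_cast; linarith)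
      have h3 : 1 / t ≤ 2 * (t - s) := by
        rw [div_le_iff₀ ht0]
        nlinarith
      linarith

/-! ### Powers of `T` -/

lemma ev_rpow (C a b : ℝ) (h : a < b) : ∀ᶠ T : ℝ in atTop, C * T ^ a ≤ T ^ b := by
  have h1 : Tendsto (fun T : ℝ => T ^ (b - a)) atTop atTop := tendsto_rpow_atTop (by linarith)
  filter_upwards [h1.eventually_ge_atTop C, eventually_gt_atTop 0] with T hT hT0
  have h2 : T ^ b = T ^ (b - a) * T ^ a := by
    rw [← Real.rpow_add hT0]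
    congr 1
    ring
  rw [h2]
  have := Real.rpow_pos_of_pos hT0 a
  gcongr

/-! ### Tuples -/

variable {ι : Type} [Fintype ι]

/-- the part of a tuple from the factors of dilation `≠ 1` -/
noncomputable def NN (f : ι → Fac) (z : ι → ℕ) : ℕ :=
  ∏ l, if (f l).r = 1 then 1 else z l

/-- the part of a tuple from the factors of dilation `1` -/
noncomputable def kk (f : ι → Fac) (z : ι → ℕ) : ℕ :=
  ∏ l, if (f l).r = 1 then z l else 1

lemma NN_mul_kk (f : ι → Fac) (z : ι → ℕ) : NN f z * kk f z = ∏ l, z l := by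
  unfold NN kk
  rw [← Finset.prod_mul_distrib]
  refine Finset.prod_congr rfl fun l _ => ?_
  split_ifs <;> simp

lemma TU_pos {f : ι → Fac} {D T : ℝ} {z : ι → ℕ} (hz : z ∈ TU f D T) (l : ι) : 1 ≤ z l := by
  classical
  unfold TU at hz
  rw [Finset.mem_biUnion] at hz
  obtain ⟨j, _, h2⟩ := hz
  rw [Fintype.mem_piFinset] at h2
  have := Finset.mem_Ico.1 (h2 l)
  have h3 : 1 ≤ 2 ^ j l := Nat.one_le_two_pow
  omega

lemma NN_pos {f : ι → Fac} {z : ι → ℕ} (hz : ∀ l, 1 ≤ z l) : 1 ≤ NN f z := by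
  unfold NN
  refine Nat.one_le_iff_ne_zero.2 (Finset.prod_ne_zero_iff.2 fun l _ => ?_)
  have := hz l
  split_ifs <;> omega

lemma kk_pos {f : ι → Fac} {z : ι → ℕ} (hz : ∀ l, 1 ≤ z l) : 1 ≤ kk f z := by
  unfold kk
  refine Nat.one_le_iff_ne_zero.2 (Finset.prod_ne_zero_iff.2 fun l _ => ?_)
  have := hz l
  split_ifs <;> omega

lemma lam_eq {f : ι → Fac} {r : ℝ} (hr : ∀ l, (f l).r = r ∨ (f l).r = 1) {z : ι → ℕ}
    (hz : ∀ l, 1 ≤ z l) : lam f z = r * Real.log (NN f z) + Real.log (kk f z) := by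
  have h0 : ∀ l, (z l : ℝ) ≠ 0 := fun l => by
    have := hz l
    have h : z l ≠ 0 := by omega
    exact_mod_cast h
  unfold lam NN kk
  push_cast
  rw [Real.log_prod (fun l _ => by split_ifs <;> simp [h0 l]),
    Real.log_prod (fun l _ => by split_ifs <;> simp [h0 l]), Finset.mul_sum,
    ← Finset.sum_add_distrib]
  refine Finset.sum_congr rfl fun l _ => ?_
  split_ifs with h
  · rw [h]
    simp
  · rcases hr l with h1 | h1
    · rw [h1]
      simp
    · exact absurd h1 h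

lemma norm_co_le {f : ι → Fac} {z : ι → ℕ} (hz : ∀ l, 1 ≤ z l) :
    ‖co f z‖ ≤ (NN f z : ℝ) ^ (-(1 / 2) : ℝ) := by
  unfold co NN
  rw [norm_prod]
  push_cast
  rw [← Real.finsetProd_rpow _ _ fun l _ => by split_ifs <;> positivity]
  refine Finset.prod_le_prod (fun l _ => norm_nonneg _) fun l _ => ?_
  have h1 : (1 : ℝ) ≤ z l := by exact_mod_cast hz l
  have h0 : 0 < z l := hz l
  rw [norm_mul, Complex.norm_natCast_cpow_of_pos h0]
  have h2 : (-(1 / 2 + (f l).τ * I) : ℂ).re = -(1 / 2) := by simp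
  rw [h2]
  have h3 : (0 : ℝ) ≤ (z l : ℝ) ^ (-(1 / 2) : ℝ) := by positivity
  have h4 : (z l : ℝ) ^ (-(1 / 2) : ℝ) ≤ 1 := Real.rpow_le_one_of_one_le_of_nonpos h1 (by norm_num)
  have h5 := (f l).c_le (z l)
  split_ifs
  · rw [Real.one_rpow]
    exact mul_le_one₀ h5 h3 h4
  · calc _ ≤ 1 * (z l : ℝ) ^ (-(1 / 2) : ℝ) := by gcongr
      _ = _ := one_mul _

lemma norm_co_le_one {f : ι → Fac} {z : ι → ℕ} (hz : ∀ l, 1 ≤ z l) : ‖co f z‖ ≤ 1 := by
  refine (norm_co_le hz).trans ?_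
  refine Real.rpow_le_one_of_one_le_of_nonpos ?_ (by norm_num)
  exact_mod_cast NN_pos hz

lemma TU_prod_le {f : ι → Fac} {D T : ℝ} (hr : ∀ l, 1 ≤ (f l).r) (hT : 1 ≤ T) {z : ι → ℕ}
    (hz : z ∈ TU f D T) : ((∏ l, z l : ℕ) : ℝ) ≤ 2 ^ Fintype.card ι * T ^ D := by
  classical
  unfold TU at hz
  rw [Finset.mem_biUnion] at hz
  obtain ⟨j, h1, h2⟩ := hz
  rw [Fintype.mem_piFinset] at h2
  have h3 : (SZ j : ℝ) ≤ T ^ (D / 1) := SZ_le_of_mem one_pos hT hr h1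
  rw [div_one] at h3
  have h4 : ∏ l, z l ≤ ∏ l, (2 ^ j l * 2) := by
    refine Finset.prod_le_prod' fun l _ => ?_
    have := (Finset.mem_Ico.1 (h2 l)).2
    rw [pow_succ] at this
    exact this.le
  rw [Finset.prod_mul_distrib, Finset.prod_const, Finset.card_univ] at h4
  calc ((∏ l, z l : ℕ) : ℝ) ≤ ((∏ l, 2 ^ j l) * 2 ^ Fintype.card ι : ℕ) := by exact_mod_cast h4
    _ = SZ j * 2 ^ Fintype.card ι := by unfold SZ; push_cast; ring
    _ ≤ T ^ D * 2 ^ Fintype.card ι := by gcongr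
    _ = _ := mul_comm _ _

open Classical in
/-- the number of tuples with a given product -/
lemma card_fiber_le (S : Finset (ι → ℕ)) (n : ℕ) (hn : n ≠ 0) :
    (S.filter fun z => ∏ l, z l = n).card ≤ n.divisors.card ^ Fintype.card ι := by
  have h : (S.filter fun z => ∏ l, z l = n) ⊆ Fintype.piFinset fun _ : ι => n.divisors := by
    intro z hz
    rw [Finset.mem_filter] at hz
    rw [Fintype.mem_piFinset]
    intro l
    rw [Nat.mem_divisors]
    refine ⟨?_, hn⟩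
    rw [← hz.2]
    exact Finset.dvd_prod_of_mem _ (Finset.mem_univ l)
  refine (Finset.card_le_card h).trans ?_
  rw [Fintype.card_piFinset]
  simp

open Classical in
/-- few tuples with a given product, not many tuples altogether -/
lemma TU_count (f : ι → Fac) (D e : ℝ) (hr : ∀ l, 1 ≤ (f l).r) (hD : 0 < D) (hD1 : D < 1)
    (he : 0 < e) : ∀ᶠ T : ℝ in atTop,
      (∀ n : ℕ, n ≠ 0 → (((TU f D T).filter fun z => ∏ l, z l = n).card : ℝ) ≤ T ^ e) ∧
      ((TU f D T).card : ℝ) ≤ T ^ (D + 2 * e) := by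
  set L := Fintype.card ι with hL
  set e' : ℝ := e / (2 * (L + 1)) with he'
  have hLpos : (0 : ℝ) < 2 * (L + 1) := by positivity
  have he'pos : 0 < e' := by positivity
  obtain ⟨C, hC, hdiv⟩ := Pool.Agent.H89.Cubic.div_bound e' he'pos
  filter_upwards [ev_rpow (C ^ L) (e / 2) e (by linarith), ev_rpow (2 ^ L) D 1 hD1,
    ev_rpow (2 ^ L) (D + e) (D + 2 * e) (by linarith), eventually_ge_atTop 1]
    with T h1 h2 h3 hT
  have hT0 : 0 < T := by linarith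
  have hfib : ∀ n : ℕ, n ≠ 0 →
      (((TU f D T).filter fun z => ∏ l, z l = n).card : ℝ) ≤ T ^ e := by
    intro n hn
    rcases Finset.eq_empty_or_nonempty ((TU f D T).filter fun z => ∏ l, z l = n) with h | h
    · rw [h]
      simp only [Finset.card_empty, Nat.cast_zero]
      positivity
    · obtain ⟨z, hz⟩ := h
      rw [Finset.mem_filter] at hz
      have hnT : (n : ℝ) ≤ T := by
        rw [← hz.2]
        refine (TU_prod_le hr hT hz.1).trans ?_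
        rw [Real.rpow_one] at h2
        exact h2
      have hn1 : 1 ≤ n := Nat.one_le_iff_ne_zero.2 hn
      have h4 : (n.divisors.card : ℝ) ≤ C * T ^ e' := by
        refine (hdiv n hn1).trans ?_
        gcongr
      calc (((TU f D T).filter fun z => ∏ l, z l = n).card : ℝ)
          ≤ ((n.divisors.card ^ L : ℕ) : ℝ) := by exact_mod_cast card_fiber_le _ n hn
        _ = (n.divisors.card : ℝ) ^ L := by push_cast; rfl
        _ ≤ (C * T ^ e') ^ L := by gcongr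
        _ = C ^ L * T ^ (e' * L) := by
            rw [mul_pow, ← Real.rpow_natCast (T ^ e'), ← Real.rpow_mul hT0.le]
        _ ≤ C ^ L * T ^ (e / 2) := by
            gcongr
            rw [he', div_mul_eq_mul_div, div_le_iff₀ hLpos]
            nlinarith
        _ ≤ T ^ e := h1
  refine ⟨hfib, ?_⟩
  set B : ℝ := 2 ^ L * T ^ D with hB
  have hmap : ∀ z ∈ TU f D T, (∏ l, z l) ∈ Finset.Icc 1 ⌊B⌋₊ := by
    intro z hz
    rw [Finset.mem_Icc]
    refine ⟨Nat.one_le_iff_ne_zero.2 (Finset.prod_ne_zero_iff.2 fun l _ => ?_), ?_⟩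
    · have := TU_pos hz l
      omega
    · exact Nat.le_floor (TU_prod_le hr hT hz)
  have h5 := Finset.card_eq_sum_card_fiberwise hmap
  have hBpos : 0 ≤ B := by positivity
  calc ((TU f D T).card : ℝ)
      = ∑ n ∈ Finset.Icc 1 ⌊B⌋₊, (((TU f D T).filter fun z => ∏ l, z l = n).card : ℝ) := by
        rw [h5]; push_cast; rfl
    _ ≤ ∑ n ∈ Finset.Icc 1 ⌊B⌋₊, T ^ e := by
        refine Finset.sum_le_sum fun n hn => hfib n ?_
        rw [Finset.mem_Icc] at hn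
        omega
    _ = ⌊B⌋₊ * T ^ e := by rw [Finset.sum_const, nsmul_eq_mul]; simp
    _ ≤ B * T ^ e := by
        gcongr
        exact Nat.floor_le hBpos
    _ = 2 ^ L * T ^ (D + e) := by rw [hB, Real.rpow_add hT0]; ring
    _ ≤ _ := h3

end Pool.Agent.H39.DP
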