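import Pool.Agent.H39.DP.DLBb

/-!
# Two dilations, lower bound (DLB), part c: the terms off the diagonal
-/

set_option autoImplicit false

open Complex MeasureTheory Set Filter Topology

namespace Pool.Agent.H39.DP

open Pool.Agent.H25.DL Pool.Agent.H25.DP

/-- the size of the integral -/
noncomputable def FF (W δ₀ Δ : ℝ) : ℝ := if |Δ| ≤ δ₀ then W else 1 / (W * Δ ^ 2)

/-- the frequency -/
noncomputable def dl (r : ℝ) (N k p : ℕ) : ℝ := r * Real.log N + Real.log k - Real.log p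

/-- the terms with `2 ≤ N` and small frequency -/
noncomputable def hh (r W δ₀ : ℝ) (N k p : ℕ) : ℝ :=
  if 2 ≤ N ∧ |dl r N k p| ≤ 1 / 20 then (N : ℝ) ^ (-(1 / 2) : ℝ) * FF W δ₀ (dl r N k p) else 0

lemma FF_nonneg {W δ₀ Δ : ℝ} (hW : 0 ≤ W) : 0 ≤ FF W δ₀ Δ := by
  unfold FF
  split_ifs <;> positivity

lemma hh_nonneg {r W δ₀ : ℝ} (hW : 0 ≤ W) (N k p : ℕ) : 0 ≤ hh r W δ₀ N k p := by
  unfold hh
  have := FF_nonneg (W := W) (δ₀ := δ₀) (Δ := dl r N k p) hW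
  split_ifs <;> positivity

lemma hh_range {r W δ₀ : ℝ} {N k p X : ℕ} (hr : 2 ≤ r) (hk : 1 ≤ k) (hp : 1 ≤ p)
    (hpX : p < 2 * X) (h : hh r W δ₀ N k p ≠ 0) : N ∈ Finset.Icc 2 (Nat.sqrt (4 * X)) := by
  unfold hh at h
  have h0 : 2 ≤ N ∧ |dl r N k p| ≤ 1 / 20 := by
    by_contra hne
    exact h (if_neg hne)
  obtain ⟨h1, h2⟩ := h0
  rw [Finset.mem_Icc]
  refine ⟨h1, ?_⟩
  rw [Nat.le_sqrt]
  have h3 := (abs_le.1 h2).2
  unfold dl at h3
  have hNR : (2 : ℝ) ≤ N := by exact_mod_cast h1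
  have hlogN : 0 ≤ Real.log N := Real.log_nonneg (by linarith)
  have hlogk : 0 ≤ Real.log k := Real.log_nonneg (by exact_mod_cast hk)
  have h4 : 2 * Real.log N ≤ r * Real.log N := by gcongr
  have h5 : (1 / 20 : ℝ) ≤ Real.log 2 := by
    have := Real.log_two_gt_d9
    linarith
  have h6 : Real.log ((N : ℝ) * N) ≤ Real.log (p * 2) := by
    rw [Real.log_mul (by positivity) (by positivity), Real.log_mul (by positivity) (by positivity)]
    linarith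
  have hpR : (1 : ℝ) ≤ p := by exact_mod_cast hp
  rw [Real.log_le_log_iff (by positivity) (by positivity)] at h6
  have h7 : N * N ≤ p * 2 := by exact_mod_cast h6
  omega

lemma inner_sum (hNC : T_NC) {r W δ₀ : ℝ} (hr : 2 ≤ r) (hW : 0 < W) (h0 : 0 < δ₀)
    (h1 : δ₀ ≤ 1 / 10) (N X Y : ℕ) (hN : 2 ≤ N) :
    ∑ q ∈ Finset.Ico 1 Y ×ˢ (Finset.Ico X (2 * X)).filter Nat.Prime, hh r W δ₀ N q.1 q.2 ≤
      (N : ℝ) ^ (-(1 / 2) : ℝ) * (W * (1 + 100 * (X : ℝ) ^ 2 * δ₀) +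
        1 / W * (2 / δ₀ ^ 2 + 4 * (100 * (X : ℝ) ^ 2) / δ₀)) := by
  classical
  set A := Finset.Ico 1 Y ×ˢ (Finset.Ico X (2 * X)).filter Nat.Prime with hA
  have hc : ∀ δ : ℝ, 0 < δ → δ ≤ 1 / 10 →
      ((A.filter fun q : ℕ × ℕ => |dl r N q.1 q.2| ≤ δ).card : ℝ) ≤
        1 + 100 * (X : ℝ) ^ 2 * δ := by
    intro δ hδ hδ1
    have := hNC r δ N X Y hr hN hδ hδ1
    have h2 : (A.filter fun q : ℕ × ℕ => |dl r N q.1 q.2| ≤ δ) =
        (A.filter fun q : ℕ × ℕ => |r * Real.log N + Real.log q.1 - Real.log q.2| ≤ δ) := rfl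
    rw [h2]
    calc _ ≤ 1 + 100 * δ * (X : ℝ) ^ 2 := by exact_mod_cast this
      _ = _ := by ring
  have hl := layer A (fun q : ℕ × ℕ => dl r N q.1 q.2) (100 * (X : ℝ) ^ 2) δ₀ (by positivity) h0 hc
  have hn := hc δ₀ h0 h1
  have hpt : ∀ q ∈ A, hh r W δ₀ N q.1 q.2 ≤ (N : ℝ) ^ (-(1 / 2) : ℝ) *
      ((if |dl r N q.1 q.2| ≤ δ₀ then W else 0) +
        (if δ₀ < |dl r N q.1 q.2| ∧ |dl r N q.1 q.2| ≤ 1 / 20 then
          1 / W * (1 / (dl r N q.1 q.2) ^ 2) else 0)) := by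
    intro q _
    have hN0 : (0 : ℝ) ≤ (N : ℝ) ^ (-(1 / 2) : ℝ) := by positivity
    unfold hh FF
    by_cases ha : 2 ≤ N ∧ |dl r N q.1 q.2| ≤ 1 / 20
    · rw [if_pos ha]
      refine mul_le_mul_of_nonneg_left ?_ hN0
      by_cases hb : |dl r N q.1 q.2| ≤ δ₀
      · rw [if_pos hb, if_pos hb, if_neg (by intro h; exact absurd h.1 (not_lt.2 hb))]
        linarith
      · rw [if_neg hb, if_neg hb, if_pos ⟨not_le.1 hb, ha.2⟩]
        rw [zero_add, one_div_mul_one_div]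
    · rw [if_neg ha]
      refine mul_nonneg hN0 (add_nonneg ?_ ?_) <;> split_ifs <;> positivity
  refine (Finset.sum_le_sum hpt).trans ?_
  rw [← Finset.mul_sum, Finset.sum_add_distrib, ← Finset.sum_filter, ← Finset.sum_filter,
    Finset.sum_const, ← Finset.mul_sum, nsmul_eq_mul]
  have h3 : 0 ≤ 1 / W := by positivity
  have h4 : 1 / W * ∑ q ∈ A.filter (fun q => δ₀ < |dl r N q.1 q.2| ∧ |dl r N q.1 q.2| ≤ 1 / 20),
      1 / (dl r N q.1 q.2) ^ 2 ≤ 1 / W * (2 / δ₀ ^ 2 + 4 * (100 * (X : ℝ) ^ 2) / δ₀) :=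
    mul_le_mul_of_nonneg_left hl h3
  have h5 : ((A.filter fun q : ℕ × ℕ => |dl r N q.1 q.2| ≤ δ₀).card : ℝ) * W ≤
      W * (1 + 100 * (X : ℝ) ^ 2 * δ₀) := by
    rw [mul_comm]
    exact mul_le_mul_of_nonneg_left hn hW.le
  refine mul_le_mul_of_nonneg_left ?_ (by positivity)
  exact add_le_add h5 h4

variable {ι : Type} [Fintype ι]

open Classical in
lemma group_sum (f : ι → Fac) (D T e : ℝ) (N₀ : ℕ)
    (hfib : ∀ n : ℕ, n ≠ 0 → (((TU f D T).filter fun z => ∏ l, z l = n).card : ℝ) ≤ T ^ e)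
    (G : ℕ → ℕ → ℝ) (hG : ∀ N k, 0 ≤ G N k)
    (hrange : ∀ N k, 1 ≤ k → G N k ≠ 0 → N ∈ Finset.Icc 2 N₀) :
    ∃ Y : ℕ, ∑ z ∈ TU f D T, G (NN f z) (kk f z) ≤
      T ^ e * ∑ N ∈ Finset.Icc 2 N₀, ∑ k ∈ Finset.Ico 1 Y, G N k := by
  refine ⟨(TU f D T).sup (kk f) + 1, ?_⟩
  set Y := (TU f D T).sup (kk f) + 1 with hY
  set S := (TU f D T).filter fun z => G (NN f z) (kk f z) ≠ 0 with hS
  have h1 : ∑ z ∈ TU f D T, G (NN f z) (kk f z) = ∑ z ∈ S, G (NN f z) (kk f z) := by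
    rw [hS, Finset.sum_filter_ne_zero]
  have hmap : ∀ z ∈ S, (NN f z, kk f z) ∈ Finset.Icc 2 N₀ ×ˢ Finset.Ico 1 Y := by
    intro z hz
    rw [hS, Finset.mem_filter] at hz
    have hk := kk_pos (f := f) (TU_pos hz.1)
    rw [Finset.mem_product]
    refine ⟨hrange _ _ hk hz.2, Finset.mem_Ico.2 ⟨hk, ?_⟩⟩
    have := Finset.le_sup (f := kk f) hz.1
    simp only
    omega
  rw [h1, ← Finset.sum_fiberwise_of_maps_to hmap, Finset.mul_sum, Finset.sum_product]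
  refine Finset.sum_le_sum fun N hN => ?_
  rw [Finset.mul_sum]
  refine Finset.sum_le_sum fun k hk => ?_
  have h2 : ∑ z ∈ S.filter (fun z => (NN f z, kk f z) = (N, k)), G (NN f z) (kk f z) =
      ((S.filter (fun z => (NN f z, kk f z) = (N, k))).card : ℝ) * G N k := by
    rw [← nsmul_eq_mul, ← Finset.sum_const]
    refine Finset.sum_congr rfl fun z hz => ?_
    have := (Finset.mem_filter.1 hz).2
    rw [Prod.mk.injEq] at this
    rw [this.1, this.2]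
  rw [h2]
  refine mul_le_mul_of_nonneg_right ?_ (hG N k)
  have hN2 := (Finset.mem_Icc.1 hN).1
  have hk1 := (Finset.mem_Ico.1 hk).1
  refine le_trans ?_ (hfib (N * k) (by positivity))
  have hsub : S.filter (fun z => (NN f z, kk f z) = (N, k)) ⊆
      (TU f D T).filter fun z => ∏ l, z l = N * k := by
    intro z hz
    rw [Finset.mem_filter] at hz
    rw [hS, Finset.mem_filter] at hz
    have h3 := hz.2
    rw [Prod.mk.injEq] at h3
    refine Finset.mem_filter.2 ⟨hz.1.1, ?_⟩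
    rw [← NN_mul_kk f z, h3.1, h3.2]
  exact_mod_cast Finset.card_le_card hsub

lemma near_sum (hNC : T_NC) (f : ι → Fac) {r D T e W δ₀ : ℝ} (hr : 2 ≤ r) (hT : 0 < T)
    (hW : 0 < W) (h0 : 0 < δ₀) (h1 : δ₀ ≤ 1 / 10) (X : ℕ) (hX : 1 ≤ X)
    (hfib : ∀ n : ℕ, n ≠ 0 → (((TU f D T).filter fun z => ∏ l, z l = n).card : ℝ) ≤ T ^ e) :
    ∑ z ∈ TU f D T, ∑ p ∈ (Finset.Ico X (2 * X)).filter Nat.Prime,
      hh r W δ₀ (NN f z) (kk f z) p ≤
      T ^ e * (2 * Real.sqrt (Nat.sqrt (4 * X)) * (W * (1 + 100 * (X : ℝ) ^ 2 * δ₀) +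
        1 / W * (2 / δ₀ ^ 2 + 4 * (100 * (X : ℝ) ^ 2) / δ₀))) := by
  classical
  set Q : ℝ := W * (1 + 100 * (X : ℝ) ^ 2 * δ₀) +
        1 / W * (2 / δ₀ ^ 2 + 4 * (100 * (X : ℝ) ^ 2) / δ₀) with hQ
  have hQ0 : 0 ≤ Q := by positivity
  obtain ⟨Y, hY⟩ := group_sum f D T e (Nat.sqrt (4 * X)) hfib
    (fun N k => ∑ p ∈ (Finset.Ico X (2 * X)).filter Nat.Prime, hh r W δ₀ N k p)
    (fun N k => Finset.sum_nonneg fun p _ => hh_nonneg hW.le N k p)
    (by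
      intro N k hk hne
      obtain ⟨p, hp, hp2⟩ := Finset.exists_ne_zero_of_sum_ne_zero hne
      rw [Finset.mem_filter, Finset.mem_Ico] at hp
      exact hh_range hr hk (by omega) hp.1.2 hp2)
  refine hY.trans ?_
  refine mul_le_mul_of_nonneg_left ?_ (by positivity)
  calc ∑ N ∈ Finset.Icc 2 (Nat.sqrt (4 * X)), ∑ k ∈ Finset.Ico 1 Y,
        ∑ p ∈ (Finset.Ico X (2 * X)).filter Nat.Prime, hh r W δ₀ N k p
      ≤ ∑ N ∈ Finset.Icc 2 (Nat.sqrt (4 * X)), (N : ℝ) ^ (-(1 / 2) : ℝ) * Q := by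
        refine Finset.sum_le_sum fun N hN => ?_
        have h2 := inner_sum hNC hr hW h0 h1 N X Y (Finset.mem_Icc.1 hN).1
        rw [Finset.sum_product] at h2
        exact h2
    _ = (∑ N ∈ Finset.Icc 2 (Nat.sqrt (4 * X)), (N : ℝ) ^ (-(1 / 2) : ℝ)) * Q := by
        rw [Finset.sum_mul]
    _ ≤ 2 * Real.sqrt (Nat.sqrt (4 * X)) * Q := by
        gcongr
        exact sum_inv_sqrt _

/-- logarithms of different integers are not close -/
lemma log_gap {k p : ℕ} {B : ℝ} (hk : 1 ≤ k) (hp : 1 ≤ p) (hne : k ≠ p) (hkB : (k : ℝ) ≤ B)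
    (hpB : (p : ℝ) ≤ B) : 1 / B ≤ |Real.log k - Real.log p| := by
  have main : ∀ a b : ℕ, 1 ≤ a → a < b → (b : ℝ) ≤ B → 1 / B ≤ Real.log b - Real.log a := by
    intro a b ha hab hb
    have ha0 : (0 : ℝ) < a := by exact_mod_cast ha
    have hb0 : (0 : ℝ) < b := by
      have : 0 < b := by omega
      exact_mod_cast this
    have h1 := Real.one_sub_inv_le_log_of_pos (div_pos hb0 ha0)
    rw [Real.log_div hb0.ne' ha0.ne', inv_div] at h1
    have h2 : (a : ℝ) + 1 ≤ b := by exact_mod_cast hab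
    have h3 : 1 / B ≤ 1 / (b : ℝ) := one_div_le_one_div_of_le hb0 hb
    have h4 : 1 / (b : ℝ) ≤ 1 - a / b := by
      rw [div_le_iff₀ hb0, sub_mul, div_mul_cancel₀ _ hb0.ne']
      linarith
    linarith
  rcases Nat.lt_or_gt_of_ne hne with h | h
  · have := main k p hk h hpB
    rw [abs_sub_comm]
    exact this.trans (le_abs_self _)
  · exact (main p k hp h hkB).trans (le_abs_self _)

/-- the bound for one term -/
lemma term_bound {C : ℝ} (hC : 0 < C)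
    (hI : ∀ H W Δ : ℝ, 0 < W → ‖II H W Δ‖ ≤ C * W ∧ (Δ ≠ 0 → ‖II H W Δ‖ ≤ C / (W * Δ ^ 2)))
    {f : ι → Fac} {r B H W δ₀ : ℝ} (hr : ∀ l, (f l).r = r ∨ (f l).r = 1) (hW : 0 < W)
    (hB : 20 ≤ B) (h0 : 0 < δ₀) {z : ι → ℕ} (hz : ∀ l, 1 ≤ z l)
    (hzB : ((∏ l, z l : ℕ) : ℝ) ≤ B) {p : ℕ} (hp : 1 ≤ p) (hpB : (p : ℝ) ≤ B)
    (hne : ¬(NN f z = 1 ∧ kk f z = p)) :
    ‖co f z‖ * ‖II H W (lam f z - Real.log p)‖ ≤
      C * B ^ 2 / W + C * hh r W δ₀ (NN f z) (kk f z) p := by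
  have hlam : lam f z - Real.log p = dl r (NN f z) (kk f z) p := by
    unfold dl
    rw [lam_eq hr hz]
  rw [hlam]
  set Δ := dl r (NN f z) (kk f z) p with hΔ
  have hhn := hh_nonneg (r := r) (δ₀ := δ₀) hW.le (NN f z) (kk f z) p
  have hco := norm_co_le_one (f := f) hz
  have hfar : ∀ c : ℝ, 0 < c → c ≤ |Δ| → 1 / c ≤ B →
      ‖co f z‖ * ‖II H W Δ‖ ≤ C * B ^ 2 / W + C * hh r W δ₀ (NN f z) (kk f z) p := by
    intro c hc hcΔ hcB
    have hΔ0 : Δ ≠ 0 := by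
      intro h
      rw [h, abs_zero] at hcΔ
      linarith
    have h1 := (hI H W Δ hW).2 hΔ0
    have h2 : C / (W * Δ ^ 2) ≤ C * B ^ 2 / W := by
      have h3 : c ^ 2 ≤ Δ ^ 2 := by
        rw [← sq_abs Δ]
        exact pow_le_pow_left₀ hc.le hcΔ 2
      have h4 : 1 ≤ B ^ 2 * Δ ^ 2 := by
        have h5 : 1 ≤ B * c := by
          rw [div_le_iff₀ hc] at hcB
          exact hcB
        have h6 : 1 ≤ (B * c) ^ 2 := one_le_pow₀ h5
        rw [mul_pow] at h6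
        have hB2 : 0 ≤ B ^ 2 := by positivity
        nlinarith
      have hΔ2 : 0 < Δ ^ 2 := by positivity
      rw [div_le_div_iff₀ (by positivity) hW]
      have : C * W * 1 ≤ C * W * (B ^ 2 * Δ ^ 2) := by gcongr
      linarith
    have h7 : ‖co f z‖ * ‖II H W Δ‖ ≤ 1 * (C * B ^ 2 / W) := by
      gcongr
      exact h1.trans h2
    have h8 : 0 ≤ C * hh r W δ₀ (NN f z) (kk f z) p := by positivity
    linarith
  by_cases hbig : 1 / 20 < |Δ|
  · exact hfar (1 / 20) (by norm_num) hbig.le (by norm_num; exact hB)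
  · rw [not_lt] at hbig
    have hN1 := NN_pos (f := f) hz
    have hk1 := kk_pos (f := f) hz
    rcases Nat.lt_or_ge (NN f z) 2 with hN | hN
    · have hN' : NN f z = 1 := by omega
      have hkne : kk f z ≠ p := fun h => hne ⟨hN', h⟩
      have hkB : (kk f z : ℝ) ≤ B := by
        have h3 := NN_mul_kk f z
        rw [hN', one_mul] at h3
        rw [h3]
        exact hzB
      have h4 : Δ = Real.log (kk f z) - Real.log p := by
        rw [hΔ]
        unfold dl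
        rw [hN']
        simp
      have h5 := log_gap hk1 hp hkne hkB hpB
      rw [← h4] at h5
      refine hfar (1 / B) (by positivity) h5 ?_
      rw [one_div_one_div]
    · have h5 : ‖II H W Δ‖ ≤ C * FF W δ₀ Δ := by
        unfold FF
        by_cases hd : |Δ| ≤ δ₀
        · rw [if_pos hd]
          exact (hI H W Δ hW).1
        · rw [if_neg hd]
          have hΔ0 : Δ ≠ 0 := by
            intro h
            rw [h, abs_zero] at hd
            exact hd h0.le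
          refine ((hI H W Δ hW).2 hΔ0).trans (le_of_eq ?_)
          ring
      have h6 := norm_co_le (f := f) hz
      have h7 : hh r W δ₀ (NN f z) (kk f z) p =
          (NN f z : ℝ) ^ (-(1 / 2) : ℝ) * FF W δ₀ Δ := by
        unfold hh
        rw [if_pos ⟨hN, hbig⟩]
      have h8 : ‖co f z‖ * ‖II H W Δ‖ ≤ (NN f z : ℝ) ^ (-(1 / 2) : ℝ) * (C * FF W δ₀ Δ) := by
        gcongr
      have h9 : 0 ≤ C * B ^ 2 / W := by positivity
      rw [h7]
      linarith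

end Pool.Agent.H39.DP
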